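import Pool.Agent.MP_ea150c_mp.H49.SpecG

/-! Statements of the rigidity part (V). -/

namespace Pool.Agent.MP_ea150c_mp.H49

noncomputable section

section Loc
variable {S Λ : Type} [CommRing S]

/-- Fractions whose denominators are powers of `∏ i ∈ J, g i`. -/
def Loc (L : Type) [Field L] [Algebra S L] (g : Λ → S) (J : Finset Λ) : Subring L where
  carrier := {z | ∃ (N : ℕ) (a : S), algebraMap S L (∏ i ∈ J, g i) ^ N * z = algebraMap S L a}
  zero_mem' := ⟨0, 0, by simp⟩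
  one_mem' := ⟨0, 1, by simp⟩
  neg_mem' := fun ⟨N, a, h⟩ => ⟨N, -a, by rw [mul_neg, h, map_neg]⟩
  add_mem' := fun ⟨N, a, h⟩ ⟨N', a', h'⟩ =>
    ⟨N + N', (∏ i ∈ J, g i) ^ N' * a + (∏ i ∈ J, g i) ^ N * a', by
      rw [map_add, map_mul, map_mul, map_pow, map_pow, ← h, ← h']; ring⟩
  mul_mem' := fun ⟨N, a, h⟩ ⟨N', a', h'⟩ => ⟨N + N', a * a', by rw [map_mul, ← h, ← h']; ring⟩

/-- `x` is a coboundary on the charts in `T`. -/
def CobOn [LinearOrder Λ] (L : Type) [Field L] [Algebra S L] (g : Λ → S) (T : Finset Λ)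
    (x : Finset Λ → L) : Prop :=
  ∃ z : Finset Λ → L, (∀ J, z J ∈ Loc L g J) ∧ ∀ J, J ⊆ T → x J = dl L L z J

end Loc

/-- VT: adding charts in the radical keeps coboundaries; restriction along order embeddings. -/
def VT : Prop :=
  (∀ (S L Λ : Type) [CommRing S] [Field L] [Algebra S L] [LinearOrder Λ] [Fintype Λ] (g : Λ → S)
    (T : Finset Λ), (∀ i, algebraMap S L (g i) ≠ 0) →
    (∀ i, g i ∈ (Ideal.span (g '' (T : Set Λ))).radical) →
    ∀ x : Finset Λ → L, (∀ J, x J ∈ Loc L g J) → dl L L x = 0 → CobOn L g T x →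
      CobOn L g Finset.univ x) ∧
  (∀ (O E Λ Λ' : Type) [CommRing O] [AddCommGroup E] [Module O E] [LinearOrder Λ] [LinearOrder Λ']
    (e : Λ' ↪o Λ) (x : Finset Λ → E) (J : Finset Λ'),
    dl O E x (J.map e.toEmbedding) = dl O E (fun J' => x (J'.map e.toEmbedding)) J)

section Orbit
variable (K : Type) [Field K]

/-- Polynomials in `s1, s2, t1, t2`. -/
abbrev SR : Type := MvPolynomial (Fin 4) K

/-- Their fractions. -/
abbrev LR : Type := FractionRing (SR K)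

/-- The variables as fractions. -/
def sv (i : Fin 4) : LR K := algebraMap (SR K) (LR K) (MvPolynomial.X i)

variable {K}

open MvPolynomial in
/-- The coordinate `c` of `X = (c,a,d,b)` in the moving frame. -/
def gS (Y : Fin 4 → K) : SR K :=
  C (Y 0) * (X 0 * X 2) + C (Y 1) * (X 0 * X 3) - C (Y 2) * (X 1 * X 2) + C (Y 3) * (X 1 * X 3)

/-- All coordinates in the moving frame `s, (0, 1/s1), t, (0, 1/t1)`. -/
def fr (Y : Fin 4 → K) : Fin 4 → LR K :=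
  ![algebraMap (SR K) (LR K) (gS Y),
    (sv K 0 * algebraMap K (LR K) (Y 1) + sv K 1 * algebraMap K (LR K) (Y 3)) / sv K 2,
    (sv K 2 * algebraMap K (LR K) (Y 2) - sv K 3 * algebraMap K (LR K) (Y 3)) / sv K 0,
    algebraMap K (LR K) (Y 3) / (sv K 0 * sv K 2)]

/-- The class `cc` of a family of matrices. -/
def ccL {Λ : Type} [LinearOrder Λ] (Y : Λ → Fin 4 → K) (J : Finset Λ) : LR K :=
  if h : J.card = 3 then
    (fr (Y (J.orderEmbOfFin h 0)) 2 / fr (Y (J.orderEmbOfFin h 0)) 0 -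
      fr (Y (J.orderEmbOfFin h 1)) 2 / fr (Y (J.orderEmbOfFin h 1)) 0) *
    (fr (Y (J.orderEmbOfFin h 1)) 1 / fr (Y (J.orderEmbOfFin h 1)) 0 -
      fr (Y (J.orderEmbOfFin h 2)) 1 / fr (Y (J.orderEmbOfFin h 2)) 0)
  else 0

end Orbit

/-- VNT: the class `cc` is a nontrivial cocycle on a covering family. -/
def VNT : Prop := ∀ (K Λ : Type) [Field K] [LinearOrder Λ] [Fintype Λ],
  (∀ Y : Fin 4 → K, Y ≠ 0 → algebraMap (SR K) (LR K) (gS Y) ≠ 0) ∧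
  ∀ Y : Λ → Fin 4 → K, (∀ i, Y i ≠ 0) →
    (∀ J, ccL Y J ∈ Loc (LR K) (fun i => gS (Y i)) J) ∧ dl (LR K) (LR K) (ccL Y) = 0 ∧
    (![1, 0, 0, 0] ∈ Submodule.span K (Set.range Y) → ![0, 0, 0, 1] ∈ Submodule.span K (Set.range Y) →
      ![0, 1, -1, 0] ∈ Submodule.span K (Set.range Y) → ∀ γ : K,
      CobOn (LR K) (fun i => gS (Y i)) Finset.univ
        (fun J => algebraMap K (LR K) γ * ccL Y J) → γ = 0)

/-- A configuration with a stress: coordinates, a base vertex `w`, and the multipliers. -/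
structure Pt (I K : Type) where
  al : I → K
  be : I → K
  X : I → Fin 4 → K
  w : I
  ρ : I → K
  t : I → I → K

section Graph
variable {I E : Type} [LinearOrder I] [Fintype I] [Fintype E] [DecidableEq E]

/-- Adjacency away from the root. -/
def PG.Adj (G : PG I E) (u v : I) : Prop :=
  ∃ e, (G.src e = some u ∧ G.tgt e = some v) ∨ (G.src e = some v ∧ G.tgt e = some u)

/-- The extra variables of the main model. -/
abbrev Ex0 (I : Type) : Type := Ex (∅ : Finset I)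

/-- The main model. -/
abbrev PG.M0 (G : PG I E) : Model I (Ex0 I) (Io G Finset.univ) := G.model ∅ Finset.univ

open Classical in
/-- The general invariant in the class of the function `i`. -/
def PG.aI (G : PG I E) (h : G.M0.Good) (p : ℕ) [Fact p.Prime] (m : Io G Finset.univ → ℤ_[p])
    (s : I → I → ℤ_[p]) (i : Io G Finset.univ) : Ainv ℤ_[p] I (Ex0 I) :=
  m i • G.M0.fA ℤ_[p] h i + ∑ u, ∑ v, if G.Pair i u v then s u v • abA ℤ_[p] u v else 0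

/-- The coefficients of a general element of `XX`. -/
def PG.xc (G : PG I E) (h : G.M0.Good) (p : ℕ) [Fact p.Prime] (x₀ : ℤ_[p])
    (m : Io G Finset.univ → ℤ_[p]) (s : I → I → ℤ_[p]) :
    PS (Io G Finset.univ) (Ainv ℤ_[p] I (Ex0 I)) :=
  Pi.single 0 (algebraMap ℤ_[p] _ x₀) + ∑ i, Pi.single (Pi.single i 1) (G.aI h p m s i)

/-- The general element of `XX`. -/
def PG.xf (G : PG I E) (h : G.M0.Good) (p : ℕ) [Fact p.Prime] (x₀ : ℤ_[p])
    (m : Io G Finset.univ → ℤ_[p]) (s : I → I → ℤ_[p]) :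
    Finset I → PS (Io G Finset.univ) (Ainv ℤ_[p] I (Ex0 I)) :=
  fun J => cc ℤ_[p] (Ex0 I) J • G.xc h p x₀ m s

variable {K : Type} [Field K]

/-- The conditions on a configuration. -/
structure Pt.Good (P : Pt I K) (G : PG I E) : Prop where
  Xw : P.X P.w = 0
  alw : P.al P.w ≠ 0
  gen : ∀ j, j ≠ P.w → ∃ r, r ≠ 3 ∧ P.X j r ≠ 0
  spc : ![1, 0, 0, 0] ∈ Submodule.span K (insert ![0, 0, 0, 1] (Set.range P.X))
  spm : ![0, 1, -1, 0] ∈ Submodule.span K (insert ![0, 0, 0, 1] (Set.range P.X))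
  symm : ∀ u v, P.t u v = P.t v u
  adj : ∀ u v, P.t u v ≠ 0 → G.Adj u v
  onQ : ∀ v, P.ρ v ≠ 0 → P.al v * P.be v + P.X v 0 * P.X v 3 + P.X v 1 * P.X v 2 = 0
  onB : ∀ u v, P.t u v ≠ 0 → P.al u * P.be v + P.be u * P.al v + (P.X u 0 * P.X v 3 +
    P.X u 3 * P.X v 0 + P.X u 1 * P.X v 2 + P.X u 2 * P.X v 1) = 0
  eqa : ∀ v, P.ρ v * P.al v + ∑ u, P.t u v * P.al u = 0
  eqb : ∀ v, P.ρ v * P.be v + ∑ u, P.t u v * P.be u = 0
  eqX : ∀ v r, P.ρ v * P.X v r + ∑ u, P.t u v * P.X u r = 0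

/-- The positions seen from the root, which sits at `lam * (0,0,0,1)`. -/
def Pt.X1 (P : Pt I K) (lam : K) (v : I) : Fin 4 → K := P.X v - (P.al v * lam) • ![0, 0, 0, 1]

/-- The matrices of the charts of both kinds. -/
def Pt.XK (P : Pt I K) (lam : K) (κ : I ⊕ₗ I) : Fin 4 → K :=
  Sum.elim (P.X1 lam) (fun j => if j = P.w then P.X1 lam j else P.al P.w • P.X j) (ofLex κ)

/-- The generic point of the orbit. -/
def Pt.y (P : Pt I K) (lam : K) : Var I (Ex0 I) → LR K :=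
  Sum.elim (fun z => fr (P.X1 lam z.1) z.2)
    (Sum.elim (fun v => algebraMap K (LR K) (P.al v.1))
      (fun v => algebraMap K (LR K) (P.be v + lam * P.X v 0)))

/-- The multiplier of an edge. -/
def Pt.tO (P : Pt I K) : Option I → Option I → K
  | some u, some v => P.t u v
  | _, _ => 0

/-- The multipliers of the functions. -/
def Pt.mu (P : Pt I K) (G : PG I E) : Io G Finset.univ → K :=
  Sum.elim (fun v => P.ρ v.1) (Sum.elim (fun e => P.tO (G.src e) (G.tgt e)) fun _ => 0)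

/-- Reduction of `p`-adic integers. -/
def zk (p : ℕ) [Fact p.Prime] (K : Type) [Field K] [CharP K p] : ℤ_[p] →+* K :=
  (ZMod.castHom (dvd_refl p) K).comp PadicInt.toZMod

/-- `ev` is the evaluation at the generic point of the orbit. -/
def Pt.IsEv (P : Pt I K) (p : ℕ) [Fact p.Prime] [CharP K p] (lam : K)
    (ev : Zr ℤ_[p] I (Ex0 I) →+* LR K) : Prop :=
  (∀ c : ℤ_[p], ev (algebraMap ℤ_[p] _ c) = algebraMap K (LR K) (zk p K c)) ∧
    ∀ z, ev (tX torV ℤ_[p] z) = P.y lam z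

/-- The stress functional. -/
def Pt.sig (P : Pt I K) (G : PG I E) {p : ℕ} [Fact p.Prime] (ev : Zr ℤ_[p] I (Ex0 I) →+* LR K)
    (u : Io G Finset.univ → Ainv ℤ_[p] I (Ex0 I)) : LR K :=
  ∑ i, algebraMap K (LR K) (P.mu G i) * ev (u i).1

/-- The value of the stress on a deformation. -/
def Pt.gam (P : Pt I K) (s : I → I → K) (lam : K) : K :=
  ∑ v, P.ρ v * s v v * P.al v * (P.be v + lam * P.X v 0) +
    ∑ u, ∑ v, P.t u v * s u v * P.al u * (P.be v + lam * P.X v 0)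

/-- Its slope. -/
def Pt.slope (P : Pt I K) (s : I → I → K) : K :=
  ∑ u, ∑ v, P.t u v * P.al u * P.X v 0 * (s u v - s v v)

open MvPolynomial in
/-- The coordinates of the charts of both kinds as polynomials. -/
def XP (w : I) (κ : I ⊕ₗ I) (r : Fin 4) : MvPolynomial (Var I (Ex0 I)) ℤ :=
  Sum.elim (fun j => X (Sum.inl (j, r))) (fun j => if j = w then X (Sum.inl (j, r)) else
    alP ∅ w * X (Sum.inl (j, r)) - alP ∅ j * X (Sum.inl (w, r))) (ofLex κ)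

/-- The class `cc` times the `p`-th power of its chart functions, as a polynomial. -/
def NhP (w : I) (p : ℕ) (J : Finset (I ⊕ₗ I)) : MvPolynomial (Var I (Ex0 I)) ℤ :=
  if h : J.card = 3 then
    (XP w (J.orderEmbOfFin h 0) 2 * XP w (J.orderEmbOfFin h 1) 0 -
      XP w (J.orderEmbOfFin h 1) 2 * XP w (J.orderEmbOfFin h 0) 0) *
    (XP w (J.orderEmbOfFin h 1) 1 * XP w (J.orderEmbOfFin h 2) 0 -
      XP w (J.orderEmbOfFin h 2) 1 * XP w (J.orderEmbOfFin h 1) 0) *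
    (XP w (J.orderEmbOfFin h 0) 0 ^ (p - 1) * XP w (J.orderEmbOfFin h 1) 0 ^ (p - 2) *
      XP w (J.orderEmbOfFin h 2) 0 ^ (p - 1))
  else 0

/-- The chart function as an invariant. -/
def gA (p : ℕ) [Fact p.Prime] (w : I) (κ : I ⊕ₗ I) : Ainv ℤ_[p] I (Ex0 I) :=
  sA ℤ_[p] _ w (ofPoly torV ℤ_[p] (XP w κ 0))

/-- `NhP` as an invariant. -/
def NhA (p : ℕ) [Fact p.Prime] (w : I) (J : Finset (I ⊕ₗ I)) : Ainv ℤ_[p] I (Ex0 I) :=
  sA ℤ_[p] _ w (ofPoly torV ℤ_[p] (NhP w p J))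

/-- The charts of the first kind. -/
def e1 (I : Type) [LinearOrder I] : I ↪ I ⊕ₗ I := ⟨fun j => toLex (Sum.inl j), fun _ _ h => by
  simpa using h⟩

/-- The charts of the second kind. -/
def e2 (I : Type) [LinearOrder I] : I ↪ I ⊕ₗ I := ⟨fun j => toLex (Sum.inr j), fun _ _ h => by
  simpa using h⟩

end Graph

section Lv
variable {I τ ι : Type} [LinearOrder I] [Fintype I] [Fintype τ] [DecidableEq τ] [Fintype ι]
  [DecidableEq ι]

/-- `u` is the level one part of `Ψ_j b`, divided by `p`. -/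
def Model.Lv1 (M : Model I τ ι) (h : M.Good) (p : ℕ) [Fact p.Prime] (j : I)
    (b : PS ι (Ainv ℤ_[p] I τ)) (u : ι → Ainv ℤ_[p] I τ) : Prop :=
  ∀ i, (M.frame p h).Ψ j b (Pi.single i 1) = (p : ℤ_[p]) • u i

/-- Families killed by every stress. -/
def Model.Null (M : Model I τ ι) (h : M.Good) (p : ℕ) [Fact p.Prime]
    (u : ι → Ainv ℤ_[p] I τ) : Prop :=
  ∃ (η : (Σ j : I, Sl τ j) → Ainv ℤ_[p] I τ) (β e : ι → Ainv ℤ_[p] I τ), ∀ i,
    u i = ∑ a, η a * (M.frame p h).d a.1 a.2 (M.fA ℤ_[p] h i) + M.fA ℤ_[p] h i * β i +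
      (p : ℤ_[p]) • e i

end Lv

/-- VU: the level one part of the Dwork operator. -/
def VU : Prop := ForModels fun I τ ι _ _ _ _ _ _ M h => ∀ (p : ℕ) [Fact p.Prime], 7 ≤ p →
  (∀ j b, ∃ u, M.Lv1 h p j b u) ∧
  (∀ j b u u', M.Lv1 h p j b u → M.Lv1 h p j b u' → u = u') ∧
  (∀ J j ω b u, j ∈ J → b ∈ M.Bh p J (p • ω) → M.Lv1 h p j b u →
    ∀ i, u i ∈ M.Ap ℤ_[p] J (ω + M.w0 + M.om i)) ∧
  (∀ j k ω b u u', b ∈ M.Bh p Finset.univ (p • ω) → M.Lv1 h p j b u → M.Lv1 h p k b u' →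
    M.Null h p (u - u')) ∧
  (∀ j (g : Ainv ℤ_[p] I τ) b u u', M.Lv1 h p j b u → M.Lv1 h p j (g ^ p • b) u' →
    M.Null h p (u' - g • u)) ∧
  (∀ (J : Finset I) j b u w, (M.frame p h).Ψ j b - (p : ℤ_[p]) • w ∈
      M.Bl p J 0 0 ⊔ sm ((p : ℤ_[p]) ^ 2) (M.Bh p J 0) → M.Lv1 h p j b u →
    M.Null h p (u - fun i => w (Pi.single i 1))) ∧
  (∀ (w β v : Finset I → PS ι (Ainv ℤ_[p] I τ)), ∀ ζ ∈ (M.frame p h).CL,
    w - (fun J => (M.frame p h).dLt (ζ J)) - dl ℤ_[p] _ β - v ∈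
      (M.frame p h).CB 0 ⊔ sm (p : ℤ_[p]) ((M.frame p h).CB 1) →
    ∀ J, M.Null h p fun i => w J (Pi.single i 1) -
      dl ℤ_[p] _ (fun J' => β J' (Pi.single i 1)) J - v J (Pi.single i 1))

/-- The hypotheses of rigidity hold with source `x₀, m, s` and target `s'`. -/
def PG.Rel {I E : Type} [LinearOrder I] [Fintype I] [Fintype E] [DecidableEq E] (G : PG I E)
    (h : G.M0.Good) (p : ℕ) [Fact p.Prime] (x₀ : ℤ_[p]) (m : Io G Finset.univ → ℤ_[p])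
    (s s' : I → I → ℤ_[p]) : Prop :=
  ∃ w ∈ (G.M0.frame p h).CB 1,
    (∀ J (hJ : J.Nonempty), (G.M0.frame p h).Ψ (J.min' hJ) (G.xf h p x₀ m s J) - (p : ℤ_[p]) • w J ∈
      (G.M0.frame p h).Bl J 0 0 ⊔ sm ((p : ℤ_[p]) ^ 2) ((G.M0.frame p h).Bh J 0)) ∧
    ∃ ζ ∈ (G.M0.frame p h).CL, ∃ β ∈ (G.M0.frame p h).CB 1, ∃ x₀' m',
      w - (fun J => (G.M0.frame p h).dLt (ζ J)) - dl ℤ_[p] _ β - G.xf h p x₀' m' s' ∈
        (G.M0.frame p h).CB 0 ⊔ sm (p : ℤ_[p]) ((G.M0.frame p h).CB 1)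

/-- A property of good configurations on good graphs. -/
def ForPts (Q : ∀ (I E : Type) [LinearOrder I] [Fintype I] [Fintype E] [DecidableEq E]
    (G : PG I E) (_ : G.M0.Good) (p : ℕ) [Fact p.Prime] (K : Type) [Field K] [CharP K p],
    Pt I K → Prop) : Prop :=
  ∀ (I E : Type) [LinearOrder I] [Fintype I] [Fintype E] [DecidableEq E] (G : PG I E), G.Good →
    ∀ (h : G.M0.Good) (p : ℕ) [Fact p.Prime], 7 ≤ p → ∀ (K : Type) [Field K] [CharP K p]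
      (P : Pt I K), P.Good G → Q I E G h p K P

/-- V0: normal form of the elements of `XX`, and trivial deformations. -/
def V0 : Prop := ForGraphs fun I _ _ _ _ _ G => ∀ (h : G.M0.Good) (p : ℕ) [Fact p.Prime], 7 ≤ p →
  (∀ v ∈ G.XX h p, ∃ x₀ m s, v = G.xf h p x₀ m s) ∧
  ∀ x₀ m s (a b : I → ℤ_[p]), (∀ u v, (u = v ∨ G.Adj u v) → (p : ℤ_[p]) ∣ s u v - (a u + b v)) →
    ∃ ζ' ∈ (G.M0.frame p h).CL, (∀ J : Finset I, J.card ≠ 3 → ζ' J = 0) ∧ dl ℤ_[p] _ ζ' = 0 ∧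
      G.xf h p x₀ m s - (fun J => (G.M0.frame p h).dLt (ζ' J)) ∈
        (G.M0.frame p h).CB 0 ⊔ sm (p : ℤ_[p]) ((G.M0.frame p h).CB 1)

/-- VG: a potential exists if all circulations that avoid a vertex pair to zero. -/
def VG : Prop := ForGraphs fun I _ _ _ _ _ G => ∀ (k : Type) [Field k], (2 : k) ≠ 0 →
  ∀ τ : I → I → k, (∀ u v, G.Adj u v → τ u v + τ v u = 0) →
    (∀ (z : I) (φ : I → I → k), (∀ u v, φ u v + φ v u = 0) →
      (∀ u v, φ u v ≠ 0 → G.Adj u v ∧ u ≠ z ∧ v ≠ z) → (∀ v, ∑ u, φ u v = 0) →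
      ∑ u, ∑ v, φ u v * τ u v = 0) →
    ∃ a : I → k, ∀ u v, G.Adj u v → τ u v = a u - a v

/-- VA: if all slopes vanish the deformation is trivial. -/
def VA : Prop := ForGraphs fun I _ _ _ _ _ G => ∀ (p : ℕ) [Fact p.Prime], 7 ≤ p →
  ∀ s : I → I → ℤ_[p],
    (∀ P : Pt I (AlgebraicClosure (ZMod p)), P.Good G →
      P.slope (fun u v => zk p (AlgebraicClosure (ZMod p)) (s u v)) = 0) →
    ∃ a b : I → ℤ_[p], ∀ u v, (u = v ∨ G.Adj u v) → (p : ℤ_[p]) ∣ s u v - (a u + b v)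

/-- VE: the evaluation on the orbit. -/
def VE : Prop := ForPts fun I _ _ _ _ _ G h p _ K _ _ P => ∀ lam : K, lam ≠ 0 →
  (∃ ev, P.IsEv p lam ev) ∧ ∀ ev, P.IsEv p lam ev →
    (∀ J ω a, J.Nonempty → a ∈ G.M0.Ap ℤ_[p] J ω →
      ev a.1 ∈ Loc (LR K) (fun v => gS (P.X1 lam v)) J) ∧
    (∀ u, G.M0.Null h p u → P.sig G ev u = 0) ∧
    (∀ (j : I) (y : Var I (Ex0 I)), ∑ i, algebraMap K (LR K) (P.mu G i) *
      ev (sj ℤ_[p] _ j (ofPoly torV ℤ_[p] (MvPolynomial.pderiv y (G.M0.f i)))) = 0) ∧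
    (∀ J, ev (cc ℤ_[p] (Ex0 I) J).1 = ccL (P.X1 lam) J) ∧
    (∀ κ, ev (gA p P.w κ).1 = algebraMap (SR K) (LR K) (gS (P.XK lam κ))) ∧
    (∀ m s, P.sig G ev (G.aI h p m s) =
      algebraMap K (LR K) (P.gam (fun u v => zk p K (s u v)) lam))

/-- VP: the polynomial cocycle. -/
def VP : Prop := ForGraphs fun I _ _ _ _ _ G => ∀ (h : G.M0.Good) (p : ℕ) [Fact p.Prime], 7 ≤ p →
  ∀ w : I,
    (∀ κ, (gA p w κ).1 = ofPoly torV ℤ_[p] (XP w κ 0)) ∧
    (∀ J, (NhA p w J).1 = ofPoly torV ℤ_[p] (NhP w p J)) ∧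
    (∀ J x₀ m s, ∃ ω, NhA p w J • G.xc h p x₀ m s ∈ G.M0.Bh p ∅ (p • ω)) ∧
    (∀ J x₀ m s, G.xf h p x₀ m s J ∈ G.M0.Bh p J 0) ∧
    (∀ J : Finset (I ⊕ₗ I), ∑ κ ∈ J, (-1) ^ (J.filter (· < κ)).card *
      (gA p w κ ^ p * NhA p w (J.erase κ)) = 0) ∧
    (∀ J : Finset I, NhA p w (J.map (e1 I)) =
      (∏ j ∈ J, gA p w (e1 I j)) ^ p * cc ℤ_[p] (Ex0 I) J)

/-- VD: in the second gauge the level one part has no pole at infinity. -/
def VD : Prop := ForPts fun I _ _ _ _ _ G h p _ K _ _ P => ∀ (J : Finset I) x₀ m s u,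
  G.M0.Lv1 h p P.w (NhA p P.w (J.map (e2 I)) • G.xc h p x₀ m s) u →
  ∃ (N : ℕ) (V : ℕ → LR K), ∀ lam : K, lam ≠ 0 → ∀ ev, P.IsEv p lam ev →
    P.sig G ev u = algebraMap K (LR K) lam ^ (if P.w ∈ J then 1 else 0) *
      ∑ e ∈ Finset.range N, (algebraMap K (LR K) lam)⁻¹ ^ e * V e

/-- VW: the cocycle on the charts of both kinds. -/
def VW : Prop := ForPts fun I _ _ _ _ _ G h p _ K _ _ P => ∀ x₀ m s s', G.Rel h p x₀ m s s' →
  ∀ lam : K, lam ≠ 0 → ∀ ev, P.IsEv p lam ev → ∃ W : Finset (I ⊕ₗ I) → LR K,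
    (∀ J, W J ∈ Loc (LR K) (fun κ => gS (P.XK lam κ)) J) ∧ dl (LR K) (LR K) W = 0 ∧
    (∀ J u, G.M0.Lv1 h p P.w (NhA p P.w J • G.xc h p x₀ m s) u →
      algebraMap (SR K) (LR K) (∏ κ ∈ J, gS (P.XK lam κ)) * W J = P.sig G ev u) ∧
    CobOn (LR K) (fun κ => gS (P.XK lam κ)) (Finset.univ.map (e1 I)) fun J =>
      W J - algebraMap K (LR K) (P.gam (fun u v => zk p K (s' u v)) lam) * ccL (P.XK lam) J

/-- VC: the slope vanishes. -/
def VC : Prop := ForPts fun _ _ _ _ _ _ G h p _ K _ _ P => Infinite K → ∀ x₀ m s s',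
  G.Rel h p x₀ m s s' → P.slope (fun u v => zk p K (s' u v)) = 0

/-- The final step. -/
theorem vStmt (v0 : V0) (va : VA) (vc : VC) : VStmt := by
  intro I E _ _ _ _ G hG h p _ hp x hx w hw h1 ζ hζ β hβ v hv h2
  obtain ⟨x₀, m, s, rfl⟩ := (v0 I E G hG h p hp).1 x hx
  obtain ⟨x₀', m', s', rfl⟩ := (v0 I E G hG h p hp).1 v hv
  obtain ⟨a, b, hab⟩ := va I E G hG p hp s' fun P hP =>
    vc I E G hG h p hp _ P hP inferInstance x₀ m s s' ⟨w, hw, h1, ζ, hζ, β, hβ, x₀', m', h2⟩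
  exact (v0 I E G hG h p hp).2 x₀' m' s' a b hab

end

end Pool.Agent.MP_ea150c_mp.H49
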