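import Pool.Agent.MP_ea150c_mp.H49.All2
import Pool.Agent.MP_ea150c_mp.H50.V0

/-! The geometric inputs, unconditionally. -/

namespace Pool.Agent.MP_ea150c_mp.H49

theorem aV0 : V0 := H50.v0 aG1 aS1 aCX aCC H96.a1 aG2a aG2b

theorem aV : VStmt := allV aV0

theorem aSGap : H20.SGap := allGap aV0

end Pool.Agent.MP_ea150c_mp.H49
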