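import Pool.Agent.MP_ea150c_mp.H49.Frame

/-! The geometric model: variables, slices, invariants, the frame of a model, position graphs. -/

namespace Pool.Agent.MP_ea150c_mp.H49

noncomputable section

/-- Variables: `(v,0),(v,1),(v,2),(v,3)` are `c_v, a_v, d_v, b_v`; `τ` are further variables. -/
abbrev Var (I τ : Type) : Type := (I × Fin 4) ⊕ τ

/-- The weight group: vertex degrees, dilation weight, two torus weights. -/
abbrev Gam (I : Type) : Type := (I → ℤ) × ℤ × ℤ × ℤ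

section Model
variable {I τ ι : Type}

/-- Only the variables `c_v` are inverted. -/
def torV : Var I τ → Bool
  | Sum.inl (_, t) => decide (t = 0)
  | Sum.inr _ => false

/-- The unipotent group element `exp (-n ξ - n' ξ')` acting on a point. -/
def gshift {A : Type} [CommRing A] (n n' : A) (x : Var I τ → A) : Var I τ → A
  | Sum.inl (v, t) =>
      if t = 0 then x (Sum.inl (v, 0))
      else if t = 1 then x (Sum.inl (v, 1)) - n' * x (Sum.inl (v, 0))
      else if t = 2 then x (Sum.inl (v, 2)) - n * x (Sum.inl (v, 0))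
      else x (Sum.inl (v, 3)) + n * x (Sum.inl (v, 1)) + n' * x (Sum.inl (v, 2))
        - n * n' * x (Sum.inl (v, 0))
  | Sum.inr t => x (Sum.inr t)

theorem gshift_gshift {A : Type} [CommRing A] (n n' m m' : A) (x : Var I τ → A) :
    gshift n n' (gshift m m' x) = gshift (n + m) (n' + m') x := by
  funext y
  rcases y with ⟨v, t⟩ | t
  · fin_cases t <;> simp [gshift] <;> ring
  · rfl

theorem map_gshift {A A' : Type} [CommRing A] [CommRing A'] (g : A →+* A') (n n' : A)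
    (x : Var I τ → A) (y : Var I τ) :
    g (gshift n n' x y) = gshift (g n) (g n') (fun z => g (x z)) y := by
  rcases y with ⟨v, t⟩ | t
  · fin_cases t <;> simp [gshift]
  · rfl

/-- A model: vertices and dilation weights of the extra variables, and the functions `f i`. -/
structure Model (I τ ι : Type) where
  vert : τ → I
  dil : τ → ℤ
  f : ι → MvPolynomial (Var I τ) ℤ
  δ : ι → I → ℤ
  dl : ι → ℤ

variable [DecidableEq I]

/-- The weight of a variable. -/
def Model.wtv (M : Model I τ ι) : Var I τ → Gam I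
  | Sum.inl (v, t) => (Pi.single v 1, 0, (if t = 0 ∨ t = 1 then -1 else 1),
      (if t = 0 ∨ t = 2 then -1 else 1))
  | Sum.inr t => (Pi.single (M.vert t) 1, M.dil t, 0, 0)

/-- The weight of `f i`. -/
def Model.om (M : Model I τ ι) (i : ι) : Gam I := (M.δ i, M.dl i, 0, 0)

variable [Fintype I] [Fintype τ] [DecidableEq τ]

/-- The weight of an exponent vector. -/
def Model.wt (M : Model I τ ι) (u : Var I τ → ℤ) : Gam I := ∑ x, u x • M.wtv x

/-- The hypotheses on a model. -/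
structure Model.Good (M : Model I τ ι) : Prop where
  dil : ∀ t, M.dil t = 1 ∨ M.dil t = -1
  hom : ∀ i, ∀ m ∈ (M.f i).support, M.wt (fun x => (m x : ℤ)) = M.om i
  inv : ∀ i (A : Type) [CommRing A] (n n' : A) (x : Var I τ → A),
    MvPolynomial.eval₂ (Int.castRingHom A) (gshift n n' x) (M.f i) =
      MvPolynomial.eval₂ (Int.castRingHom A) x (M.f i)

/-- The ring upstairs. -/
abbrev Zr (Λ : Type) [CommRing Λ] (I τ : Type) : Type := Tor Λ (torV : Var I τ → Bool)

variable (Λ : Type) [CommRing Λ]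

/-- `n_j = d_j / c_j`. -/
def nZ (τ : Type) [DecidableEq τ] (j : I) : Zr Λ I τ :=
  tX torV Λ (Sum.inl (j, 2)) * tXi torV Λ (Sum.inl (j, 0))

/-- `n'_j = a_j / c_j`. -/
def nZ' (τ : Type) [DecidableEq τ] (j : I) : Zr Λ I τ :=
  tX torV Λ (Sum.inl (j, 1)) * tXi torV Λ (Sum.inl (j, 0))

theorem gshift_tor {A : Type} [CommRing A] (n n' : A) (x : Var I τ → A) (y : Var I τ)
    (h : torV y = true) : gshift n n' x y = x y := by
  rcases y with ⟨v, t⟩ | t
  · simp only [torV, decide_eq_true_eq] at h; subst h; simp [gshift]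
  · rfl

/-- The projection onto the slice `a_j = d_j = 0`. -/
def sj (τ : Type) [Fintype τ] [DecidableEq τ] (j : I) : Zr Λ I τ →ₐ[Λ] Zr Λ I τ :=
  tlift torV (gshift (nZ Λ τ j) (nZ' Λ τ j) (tX torV Λ)) (tXi torV Λ) (fun y h => by
    rw [gshift_tor _ _ _ _ h]; exact tX_mul_tXi torV y h)

theorem sj_tX (j : I) (y : Var I τ) :
    sj Λ τ j (tX torV Λ y) = gshift (nZ Λ τ j) (nZ' Λ τ j) (tX torV Λ) y := tlift_tX _ _ _ _ _

theorem sj_tXi (j v : I) :
    sj Λ τ j (tXi torV Λ (Sum.inl (v, 0))) = tXi torV Λ (Sum.inl (v, 0)) :=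
  tlift_tXi _ _ _ _ _ (by simp [torV])

theorem sj_nZ (k j : I) : sj Λ τ k (nZ Λ τ j) = nZ Λ τ j - nZ Λ τ k := by
  have h := tX_mul_tXi (Λ := Λ) (torV : Var I τ → Bool) (Sum.inl (j, 0)) (by simp [torV])
  rw [nZ, map_mul, sj_tX, sj_tXi]
  simp only [gshift, Fin.reduceEq, if_false, if_true]
  linear_combination (-nZ Λ τ k) * h

theorem sj_nZ' (k j : I) : sj Λ τ k (nZ' Λ τ j) = nZ' Λ τ j - nZ' Λ τ k := by
  have h := tX_mul_tXi (Λ := Λ) (torV : Var I τ → Bool) (Sum.inl (j, 0)) (by simp [torV])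
  rw [nZ', map_mul, sj_tX, sj_tXi]
  simp only [gshift, Fin.reduceEq, if_false, if_true]
  linear_combination (-nZ' Λ τ k) * h

theorem sj_sj (k j : I) (z : Zr Λ I τ) : sj Λ τ k (sj Λ τ j z) = sj Λ τ j z := by
  have : (sj Λ τ k).comp (sj Λ τ j) = sj Λ τ j := by
    apply tor_ext
    intro y
    rw [AlgHom.comp_apply, sj_tX]
    have h1 := map_gshift (sj Λ τ k : Zr Λ I τ →+* Zr Λ I τ) (nZ Λ τ j) (nZ' Λ τ j) (tX torV Λ) y
    simp only [RingHom.coe_coe] at h1
    rw [h1, sj_nZ, sj_nZ']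
    have h2 : (fun z => sj Λ τ k (tX torV Λ z)) = gshift (nZ Λ τ k) (nZ' Λ τ k) (tX torV Λ) :=
      funext fun z => sj_tX Λ k z
    rw [h2, gshift_gshift]
    simp
  exact DFunLike.congr_fun this z

/-- The ring of invariants. -/
def Ainv (I τ : Type) [DecidableEq I] [Fintype I] [Fintype τ] [DecidableEq τ] :
    Subalgebra Λ (Zr Λ I τ) :=
  ⨅ j : I, AlgHom.equalizer (sj Λ τ j) (AlgHom.id Λ _)

theorem mem_Ainv (z : Zr Λ I τ) : z ∈ Ainv Λ I τ ↔ ∀ j, sj Λ τ j z = z := by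
  simp [Ainv, Algebra.mem_iInf, AlgHom.mem_equalizer]

/-- The projection onto the slice as a map to the invariants. -/
def sA (τ : Type) [Fintype τ] [DecidableEq τ] (j : I) : Zr Λ I τ →ₐ[Λ] Ainv Λ I τ :=
  (sj Λ τ j).codRestrict _ fun z => (mem_Ainv Λ _).2 fun k => sj_sj Λ k j z

/-- The variables of the slice `a_j = d_j = 0`. -/
abbrev Sl (τ : Type) (j : I) : Type :=
  {x : Var I τ // x ≠ Sum.inl (j, 1) ∧ x ≠ Sum.inl (j, 2)}

/-- The inverted variables on the slice. -/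
def torS (τ : Type) (j : I) : Sl τ j → Bool := fun x => torV x.1

/-- The inclusion of the slice ring into the ring upstairs. -/
def inS (τ : Type) [Fintype τ] [DecidableEq τ] (j : I) : Tor Λ (torS τ j) →ₐ[Λ] Zr Λ I τ :=
  tlift (torS τ j) (fun x => tX torV Λ x.1) (fun x => tXi torV Λ x.1)
    (fun x h => tX_mul_tXi torV x.1 h)

/-- The chart map from the slice ring to the invariants. -/
def kapS (τ : Type) [Fintype τ] [DecidableEq τ] (j : I) : Tor Λ (torS τ j) →ₐ[Λ] Ainv Λ I τ :=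
  (sA Λ τ j).comp (inS Λ τ j)

/-- Restriction to the slice. -/
def rhoZ (τ : Type) [Fintype τ] [DecidableEq τ] (j : I) : Zr Λ I τ →ₐ[Λ] Tor Λ (torS τ j) :=
  tlift torV
    (fun x => if h : x ≠ Sum.inl (j, 1) ∧ x ≠ Sum.inl (j, 2) then tX (torS τ j) Λ ⟨x, h⟩ else 0)
    (fun x => if h : x ≠ Sum.inl (j, 1) ∧ x ≠ Sum.inl (j, 2) then tXi (torS τ j) Λ ⟨x, h⟩ else 0)
    (fun x hx => by
      have h : x ≠ Sum.inl (j, 1) ∧ x ≠ Sum.inl (j, 2) := by
        constructor <;> rintro rfl <;> simp [torV] at hx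
      rw [dif_pos h, dif_pos h]
      exact tX_mul_tXi _ _ hx)

/-- Restriction of invariants to the slice. -/
def rhoA (τ : Type) [Fintype τ] [DecidableEq τ] (j : I) : Ainv Λ I τ →ₐ[Λ] Tor Λ (torS τ j) :=
  (rhoZ Λ τ j).comp (Ainv Λ I τ).val

/-- The variable `c_j` on its slice. -/
def cS (τ : Type) (j : I) : Sl τ j := ⟨Sum.inl (j, 0), by simp, by simp⟩

/-- Elements upstairs of weight `w` with poles only along `c_v`, `v ∈ J`. -/
def Model.Zp (M : Model I τ ι) (J : Finset I) (w : Gam I) : Submodule Λ (Zr Λ I τ) :=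
  supp torV Λ fun u => (∀ v, v ∉ J → 0 ≤ u (Sum.inl (v, 0))) ∧ M.wt u = w

/-- Invariants of weight `w` with poles only along `c_v`, `v ∈ J`. -/
def Model.Ap (M : Model I τ ι) (J : Finset I) (w : Gam I) : Submodule Λ (Ainv Λ I τ) :=
  (M.Zp Λ J w).comap (Ainv Λ I τ).val.toLinearMap

theorem Model.Good.mem {M : Model I τ ι} (h : M.Good) (i : ι) :
    ofPoly torV Λ (M.f i) ∈ Ainv Λ I τ := by
  rw [mem_Ainv]
  intro j
  have h1 := h.inv i (Zr Λ I τ) (nZ Λ τ j) (nZ' Λ τ j) (tX torV Λ)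
  have h2 : (fun z => sj Λ τ j (tX torV Λ z)) = gshift (nZ Λ τ j) (nZ' Λ τ j) (tX torV Λ) :=
    funext fun z => sj_tX Λ j z
  have h3 := MvPolynomial.map_eval₂Hom (Int.castRingHom (Zr Λ I τ)) (tX torV Λ)
    (sj Λ τ j : Zr Λ I τ →+* Zr Λ I τ) (M.f i)
  simp only [RingHom.coe_coe] at h3
  rw [ofPoly, h3, h2, Subsingleton.elim ((sj Λ τ j : Zr Λ I τ →+* Zr Λ I τ).comp _)
    (Int.castRingHom _)]
  exact h1

/-- The function `f i` as an invariant. -/
def Model.fA (M : Model I τ ι) (h : M.Good) (i : ι) : Ainv Λ I τ := ⟨_, h.mem Λ i⟩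

/-- The function `f i` on the slice, as an integer polynomial. -/
def Model.fS (M : Model I τ ι) (j : I) (i : ι) : MvPolynomial (Sl τ j) ℤ :=
  MvPolynomial.aeval
    (fun x => if h : x ≠ Sum.inl (j, 1) ∧ x ≠ Sum.inl (j, 2) then MvPolynomial.X ⟨x, h⟩ else 0)
    (M.f i)

variable [Fintype ι] [DecidableEq ι]

/-- The weight of the numerators at level zero. -/
def Model.w0 (M : Model I τ ι) : Gam I := ∑ i, M.om i - M.wt (fun _ => 1) + (0, 0, 2, 2)

variable (p : ℕ) [Fact p.Prime]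

/-- From invariants to top forms on the slice: `g ↦ c_j^2 ρ_j g`. -/
def chi (τ : Type) [Fintype τ] [DecidableEq τ] (j : I) :
    Ainv ℤ_[p] I τ →ₗ[ℤ_[p]] Tor ℤ_[p] (torS τ j) :=
  LinearMap.mulLeft ℤ_[p] (tX (torS τ j) ℤ_[p] (cS τ j) ^ 2) ∘ₗ (rhoA ℤ_[p] τ j).toLinearMap

/-- The inverse of `chi`. -/
def chiInv (τ : Type) [Fintype τ] [DecidableEq τ] (j : I) :
    Tor ℤ_[p] (torS τ j) →ₗ[ℤ_[p]] Ainv ℤ_[p] I τ :=
  (kapS ℤ_[p] τ j).toLinearMap ∘ₗ LinearMap.mulLeft ℤ_[p] (tXi (torS τ j) ℤ_[p] (cS τ j) ^ 2)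

/-- Series whose coefficients have the weight that makes the form invariant up to `w`. -/
def Model.Bh (M : Model I τ ι) (J : Finset I) (w : Gam I) :
    Submodule ℤ_[p] (PS ι (Ainv ℤ_[p] I τ)) :=
  Submodule.pi Set.univ fun l => M.Ap ℤ_[p] J (w + M.w0 + ∑ i, l i • M.om i)

/-- The same, of level at most `m`. -/
def Model.Bl (M : Model I τ ι) (J : Finset I) (w : Gam I) (m : ℕ) :
    Submodule ℤ_[p] (PS ι (Ainv ℤ_[p] I τ)) :=
  Submodule.pi Set.univ fun l =>
    if ∑ i, l i ≤ m then M.Ap ℤ_[p] J (w + M.w0 + ∑ i, l i • M.om i) else ⊥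

/-- The frame of a model. -/
def Model.frame (M : Model I τ ι) (h : M.Good) :
    FrameData p (Ainv ℤ_[p] I τ) (PS ι (Ainv ℤ_[p] I τ)) (Gam I) I ι (Sl τ) where
  Ar := M.Ap ℤ_[p]
  Bh := M.Bh p
  Bl := M.Bl p
  x j y := kapS ℤ_[p] τ j (tX _ ℤ_[p] y)
  wt _ y := M.wtv y.1
  d j y := (kapS ℤ_[p] τ j).toLinearMap ∘ₗ pd _ ℤ_[p] y ∘ₗ (rhoA ℤ_[p] τ j).toLinearMap
  D j y := cw p (chiInv p τ j) ∘ₗ
    DOp p (pd _ ℤ_[p] y) (fun i => rhoA ℤ_[p] τ j (M.fA ℤ_[p] h i)) ∘ₗ cw p (chi p τ j)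
  th := thOp (M.fA ℤ_[p] h)
  φ j := (kapS ℤ_[p] τ j).comp ((phi0 _ ℤ_[p] p).comp (rhoA ℤ_[p] τ j))
  Ψ j := cw p (chiInv p τ j) ∘ₗ
    stdPsi p _ (fun i => rhoA ℤ_[p] τ j (M.fA ℤ_[p] h i)) ∘ₗ cw p (chi p τ j)

end Model

section Counts
variable {I τ ι : Type} [LinearOrder I] [Fintype I] [Fintype τ] [DecidableEq τ]

/-- Points of the slice of the smallest element of `J` with `c_v ≠ 0` for `v ∈ J`, all `f i ≠ 0`. -/
def Model.cntJ (M : Model I τ ι) (F : Type) [Field F] [Fintype F] (J : Finset I) : ℕ :=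
  if hJ : J.Nonempty then
    cnt (fun x : Sl τ (J.min' hJ) => ∃ v ∈ J, x.1 = Sum.inl (v, 0)) (M.fS (J.min' hJ)) F
  else 0

/-- The number of points of the quotient. -/
def Model.Tc (M : Model I τ ι) (F : Type) [Field F] [Fintype F] : ℤ :=
  altSum fun J => (M.cntJ F J : ℤ)

/-- The class `(n_j - n_k)(n'_k - n'_l)` on triples `j < k < l`. -/
def cc (Λ : Type) [CommRing Λ] (τ : Type) [Fintype τ] [DecidableEq τ] (J : Finset I) :
    Ainv Λ I τ :=
  if h : J.card = 3 then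
    sA Λ τ (J.orderEmbOfFin h 1) (nZ Λ τ (J.orderEmbOfFin h 0)) *
      sA Λ τ (J.orderEmbOfFin h 2) (nZ' Λ τ (J.orderEmbOfFin h 1))
  else 0

/-- The cochain `h * cc * y^l`. -/
def ccY (Λ : Type) [CommRing Λ] (h : Ainv Λ I τ) (l : ι → ℕ) [Fintype ι] [DecidableEq ι] :
    Finset I → PS ι (Ainv Λ I τ) := fun J => Pi.single l (h * cc Λ τ J)

end Counts

section Graph

/-- A graph on `Option I` (the root is `none`) with the set `N0` of neighbours of infinity. -/
structure PG (I E : Type) where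
  src : E → Option I
  tgt : E → Option I
  N0 : Finset I

variable {I E : Type} [DecidableEq I] [Fintype I] [Fintype E] [DecidableEq E]

/-- The degree of a vertex. -/
def PG.deg (G : PG I E) (v : Option I) : ℕ :=
  (Finset.univ.filter fun e => G.src e = v).card + (Finset.univ.filter fun e => G.tgt e = v).card

/-- The graph is simple, and adding a vertex joined to the root and to `N0` makes it 4-regular. -/
structure PG.Good (G : PG I E) : Prop where
  four : 4 ≤ Fintype.card I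
  noloop : ∀ e, G.src e ≠ G.tgt e
  simple : ∀ e e', s(G.src e, G.tgt e) = s(G.src e', G.tgt e') → e = e'
  root : G.deg none = 3
  card : G.N0.card = 3
  reg : ∀ v, G.deg (some v) + (if v ∈ G.N0 then 1 else 0) = 4

/-- Extra variables: `α_v` for `v ∉ R` and `β_v`. -/
abbrev Ex (R : Finset I) : Type := {v : I // v ∉ R} ⊕ I

/-- Index set of the functions. -/
abbrev Io (G : PG I E) (S : Finset I) : Type := {v : I // v ∈ S} ⊕ E ⊕ {v : I // v ∈ G.N0}

open MvPolynomial in
/-- The variable `α_v`, or zero if it is dropped. -/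
def alP (R : Finset I) (v : I) : MvPolynomial (Var I (Ex R)) ℤ :=
  if h : v ∉ R then X (Sum.inr (Sum.inl ⟨v, h⟩)) else 0

open MvPolynomial in
/-- The variable `β_v`. -/
def beP (R : Finset I) (v : I) : MvPolynomial (Var I (Ex R)) ℤ := X (Sum.inr (Sum.inr v))

open MvPolynomial in
/-- The polar form `c b' + b c' + a d' + d a'`. -/
def xxP (τ : Type) (u v : I) : MvPolynomial (Var I τ) ℤ :=
  X (Sum.inl (u, 0)) * X (Sum.inl (v, 3)) + X (Sum.inl (u, 3)) * X (Sum.inl (v, 0)) +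
    X (Sum.inl (u, 1)) * X (Sum.inl (v, 2)) + X (Sum.inl (u, 2)) * X (Sum.inl (v, 1))

open MvPolynomial in
/-- The quadric of a vertex. -/
def qP (R : Finset I) (v : I) : MvPolynomial (Var I (Ex R)) ℤ :=
  alP R v * beP R v + X (Sum.inl (v, 0)) * X (Sum.inl (v, 3)) +
    X (Sum.inl (v, 1)) * X (Sum.inl (v, 2))

/-- The bilinear form of an edge. -/
def edgeP (R : Finset I) : Option I → Option I → MvPolynomial (Var I (Ex R)) ℤ
  | some u, some v => alP R u * beP R v + beP R u * alP R v + xxP _ u v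
  | none, some v => beP R v
  | some u, none => beP R u
  | none, none => 1

/-- The degree vector of an endpoint. -/
def degO : Option I → I → ℤ
  | some u => Pi.single u 1
  | none => 0

/-- The model of a position graph: `α_v` dropped for `v ∈ R`, quadrics kept for `v ∈ S`. -/
def PG.model (G : PG I E) (R S : Finset I) : Model I (Ex R) (Io G S) where
  vert := Sum.elim (fun v => v.1) id
  dil := Sum.elim (fun _ => 1) (fun _ => -1)
  f := Sum.elim (fun v => qP R v.1)
    (Sum.elim (fun e => edgeP R (G.src e) (G.tgt e)) (fun v => alP R v.1))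
  δ := Sum.elim (fun v => Pi.single v.1 2)
    (Sum.elim (fun e => degO (G.src e) + degO (G.tgt e)) (fun v => Pi.single v.1 1))
  dl := Sum.elim (fun _ => 0)
    (Sum.elim (fun e => -((if G.src e = none then 1 else 0) + (if G.tgt e = none then 1 else 0)))
      (fun _ => 1))

open Classical in
/-- Positions in `F^4` with the root at the origin and all edges non-null. -/
def PG.N4pos (G : PG I E) (F : Type) [Field F] [Fintype F] : ℕ :=
  (Finset.univ.filter fun x : I → Fin 4 → F => ∀ e,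
    ((G.src e).elim 0 x - (G.tgt e).elim 0 x) 0 * ((G.src e).elim 0 x - (G.tgt e).elim 0 x) 3 +
      ((G.src e).elim 0 x - (G.tgt e).elim 0 x) 1 * ((G.src e).elim 0 x - (G.tgt e).elim 0 x) 2
        ≠ 0).card

end Graph

end

end Pool.Agent.MP_ea150c_mp.H49
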