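import Pool.Agent.MP_ea150c_mp.H49.Frame

/-! Statements of the Dwork kit (K), of the toric facts (S) and of the matrix form of P. -/

namespace Pool.Agent.MP_ea150c_mp.H49

noncomputable section

/-- K1: the kernel coefficients are integral and divisible by `p^ν`. -/
def K1 : Prop := ∀ (p : ℕ) [Fact p.Prime], 7 ≤ p → ∀ m' m j : ℕ,
  ((kc p m' m j : ℤ_[p]) : ℚ_[p]) = ((kq p m' m j : ℚ) : ℚ_[p]) ∧ (p : ℤ_[p]) ^ nu m' ∣ kc p m' m j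

/-- The kernel with first index lowered by one. -/
def kapm (p : ℕ) [Fact p.Prime] {A : Type} [CommRing A] [Algebra ℤ_[p] A] (m' m : ℕ) (f G : A) :
    A := if m' = 0 then 0 else kap p (m' - 1) m f G

/-- K2: derivative and Euler identities of the kernel, and its vanishing outside the range. -/
def K2 : Prop := ∀ (p : ℕ) [Fact p.Prime], 7 ≤ p → ∀ (A : Type) [CommRing A] [Algebra ℤ_[p] A]
  (f G : A) (m' m : ℕ),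
  (∀ d : A →ₗ[ℤ_[p]] A, (∀ a b, d (a * b) = d a * b + a * d b) →
    d (kap p m' m f G) = kap p m' (m + 1) f G * d f - kapm p m' m f G * d (f ^ p - p * G)) ∧
  ((m + 1 : ℕ) : A) * kap p m' m f G + f * kap p m' (m + 1) f G =
    p * (((m' + 1 : ℕ) : A) * kap p m' m f G + (f ^ p - p * G) * kapm p m' m f G) ∧
  (p * (m' + 1) ≤ m → kap p m' m f G = 0)

/-- K2q: over a `ℚ_p`-algebra the kernel is the coefficient of `exp (y f + y^p Ff / p)`. -/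
def K2q : Prop := ∀ (p : ℕ) [Fact p.Prime], 7 ≤ p → ∀ (A : Type) [CommRing A] [Algebra ℤ_[p] A]
  [Algebra ℚ A] (f G : A) (m' m : ℕ),
  kap p m' m f G = ∑ j ∈ Finset.range (m' + 1),
    if p * j + (m + 1) ≤ p * (m' + 1) then
      ((-1) ^ (m' + 1) * (p : ℚ) ^ (m' - j) /
        (((p * (m' + 1) - (m + 1) - p * j).factorial : ℚ) * (j.factorial : ℚ))) •
        (f ^ (p * (m' + 1) - (m + 1) - p * j) * (f ^ p - p * G) ^ j)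
    else 0

/-- The constant of the fibre trace. -/
def lam (p : ℕ) [Fact p.Prime] : ℤ_[p] := ∑' i : ℕ, (-1) ^ i * (i.factorial : ℤ_[p]) * kc p i 0 0

/-- The product `A (k-1) * ... * A 0`. -/
def chain {R : Type} [Monoid R] (A : ℕ → R) (k : ℕ) : R := ((List.range k).map A).reverse.prod

/-- K3: the fibre trace. -/
def K3 : Prop := ∀ (p : ℕ) [Fact p.Prime], 7 ≤ p → (p : ℤ_[p]) ∣ lam p - 1 ∧
  ∀ S : ℕ, ∃ M₀ : ℕ, ∀ M ≥ M₀, ∀ (W : Type) [CommRing W] [IsDomain W] [CharZero W]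
    [Algebra ℤ_[p] W] (k : ℕ), 1 ≤ k → ∀ f G : ℕ → W, (∀ j < k, f (j + 1) = f j ^ p - p * G j) →
    f k = f 0 →
    ((∀ j < k, IsUnit (f j)) → (p : W) ^ S ∣ (1 - (p : W) ^ k) * Matrix.trace
      (chain (fun j => Matrix.of fun a b : Fin (M + 1) => kap p a b (f j) (G j)) k) -
        algebraMap ℤ_[p] W (lam p) ^ k) ∧
    ((∀ j < k, (p : W) ∣ f j) → (p : W) ^ S ∣ Matrix.trace
      (chain (fun j => Matrix.of fun a b : Fin (M + 1) => kap p a b (f j) (G j)) k))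

/-- KRow: rows of the Dwork matrix are divisible according to their level. -/
def KRow : Prop := ∀ (p : ℕ) [Fact p.Prime], 7 ≤ p → ∀ (σ ι : Type) [DecidableEq σ] [Fintype ι]
  [DecidableEq ι] (fp : ι → MvPolynomial σ ℤ) (a b : (σ → ℤ) × (ι → ℕ)),
  (p : ℤ_[p]) ^ nu (∑ i, a.2 i) ∣ ent p fp a b

/-- KSupp: where the Dwork matrix is supported. -/
def KSupp : Prop := ∀ (p : ℕ) [Fact p.Prime], 7 ≤ p → ∀ (σ ι Γ : Type) [Fintype σ] [DecidableEq σ]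
  [Fintype ι] [DecidableEq ι] [AddCommGroup Γ] (wt : σ → Γ) (om : ι → Γ)
  (fp : ι → MvPolynomial σ ℤ) (D : ℕ), (∀ i, (fp i).totalDegree ≤ D) →
  (∀ i, ∀ m ∈ (fp i).support, ∑ x, (m x : ℤ) • wt x = om i) →
  ∀ a b : (σ → ℤ) × (ι → ℕ), ent p fp a b ≠ 0 →
    (∀ x, b.1 x ≤ p * a.1 x) ∧
    (p * ∑ x, a.1 x - ∑ x, b.1 x ≤
      D * (p * (∑ i, ((a.2 i : ℤ) + 1)) - ∑ i, ((b.2 i : ℤ) + 1))) ∧
    p • (∑ x, a.1 x • wt x - ∑ i, (a.2 i + 1) • om i) =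
      ∑ x, b.1 x • wt x - ∑ i, (b.2 i + 1) • om i

/-- The core index set with zero set `Z`. -/
def Core {σ ι : Type} [Fintype σ] [Fintype ι] (tor : σ → Prop) (D M : ℕ) (Z : Finset σ)
    (a : (σ → ℤ) × (ι → ℕ)) : Prop :=
  (∀ x, 0 ≤ a.1 x) ∧ (∀ x ∈ Z, a.1 x = 0) ∧ (∀ x, ¬ tor x → x ∉ Z → 1 ≤ a.1 x) ∧
    ∑ x, a.1 x ≤ D * ∑ i, ((a.2 i : ℤ) + 1) ∧ ∑ i, a.2 i ≤ M

open Classical in
/-- K4: the exact trace formula modulo `p^S`. -/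
def K4 : Prop := ∀ (p : ℕ) [Fact p.Prime], 7 ≤ p → ∀ S : ℕ, ∃ M₀ : ℕ, ∀ M ≥ M₀,
  ∀ (σ ι : Type) [Fintype σ] [DecidableEq σ] [Fintype ι] [DecidableEq ι] (tor : σ → Prop)
    (fp : ι → MvPolynomial σ ℤ) (D : ℕ), (∀ i, (fp i).totalDegree ≤ D) →
    ∀ C : Finset σ → Finset ((σ → ℤ) × (ι → ℕ)), (∀ Z a, a ∈ C Z ↔ Core tor D M Z a) →
    ∀ k, 1 ≤ k → ∀ (F : Type) [Field F] [Fintype F], Fintype.card F = p ^ k →
      (p : ℤ_[p]) ^ S ∣ lam p ^ (Fintype.card ι * k) * (cnt tor fp F : ℤ_[p]) -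
        (1 - (p : ℤ_[p]) ^ k) ^ Fintype.card ι *
          ∑ Z ∈ (Finset.univ.filter fun x => ¬ tor x).powerset,
            ((p : ℤ_[p]) ^ k) ^ Z.card * ((p : ℤ_[p]) ^ k - 1) ^ (Fintype.card σ - Z.card) *
              trk p fp (C Z) k

/-- An index set that respects the lower bounds and contains the homogeneous core. -/
def Adm {σ ι Γ : Type} [Fintype σ] [Fintype ι] [AddCommGroup Γ] (tor : σ → Prop) (wt : σ → Γ)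
    (om : ι → Γ) (M₀ : ℕ) (z : Option σ) (N : Finset ((σ → ℤ) × (ι → ℕ))) : Prop :=
  (∀ a ∈ N, ∀ x, ¬ tor x → 0 ≤ a.1 x ∧ (z ≠ some x → 1 ≤ a.1 x)) ∧
  ∀ a : (σ → ℤ) × (ι → ℕ), (∀ x, 0 ≤ a.1 x) → (∀ x, ¬ tor x → z ≠ some x → 1 ≤ a.1 x) →
    ∑ x, a.1 x • wt x = ∑ i, (a.2 i + 1) • om i → ∑ i, a.2 i ≤ M₀ → a ∈ N

/-- K5: the trace formula modulo `q^2`. -/
def K5 : Prop := ∀ (p : ℕ) [Fact p.Prime], 7 ≤ p → ∀ S : ℕ, ∃ M₀ : ℕ,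
  ∀ (σ ι Γ : Type) [Fintype σ] [DecidableEq σ] [Fintype ι] [DecidableEq ι] [AddCommGroup Γ],
    (∀ (n : ℕ) (g : Γ), n ≠ 0 → n • g = 0 → g = 0) → ∀ (tor : σ → Prop) (wt : σ → Γ) (om : ι → Γ)
    (fp : ι → MvPolynomial σ ℤ), (∀ i, ∀ m ∈ (fp i).support, ∑ x, (m x : ℤ) • wt x = om i) →
    ∀ (N N' : Finset ((σ → ℤ) × (ι → ℕ))) (Nx : σ → Finset ((σ → ℤ) × (ι → ℕ))),
    Adm tor wt om M₀ none N → Adm tor wt om M₀ none N' → (∀ x, Adm tor wt om M₀ (some x) (Nx x)) →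
    ∀ k, 1 ≤ k → ∀ (F : Type) [Field F] [Fintype F], Fintype.card F = p ^ k →
      (p : ℤ_[p]) ^ min S (2 * k) ∣
        (-1) ^ Fintype.card σ * lam p ^ (Fintype.card ι * k) * (cnt tor fp F : ℤ_[p]) -
          (trk p fp N k - (p : ℤ_[p]) ^ k *
            (∑ x, trk p fp (Nx x) k + (Fintype.card ι : ℤ_[p]) * trk p fp N' k))

section Toric
variable {σ I Γ : Type} [Fintype σ] [DecidableEq σ] [AddCommGroup Γ]
  (tor : σ → Bool) (cv : I → σ) (wt : σ → Γ)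

/-- Elements of weight `w` with poles only along `cv v`, `v ∈ J`. -/
def Tp (Λ : Type) [CommRing Λ] (J : Finset I) (w : Γ) : Submodule Λ (Tor Λ tor) :=
  supp tor Λ fun u => (∀ v, v ∉ J → 0 ≤ u (cv v)) ∧ ∑ x, u x • wt x = w

variable (p : ℕ) [Fact p.Prime] {ι : Type} [Fintype ι] [DecidableEq ι]

/-- Series of top forms of weight `w`. -/
def BS (om : ι → Γ) (J : Finset I) (w : Γ) : Submodule ℤ_[p] (PS ι (Tor ℤ_[p] tor)) :=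
  Submodule.pi Set.univ fun l => Tp tor cv wt ℤ_[p] J (w + ∑ i, (l i + 1) • om i - ∑ x, wt x)

/-- Compositions of elementary shifts. -/
inductive IsTri (J₀ : Finset I) : (Tor ℤ_[p] tor ≃ₐ[ℤ_[p]] Tor ℤ_[p] tor) → Prop
  | refl : IsTri J₀ AlgEquiv.refl
  | step (τ s : Tor ℤ_[p] tor ≃ₐ[ℤ_[p]] Tor ℤ_[p] tor) (i : σ) (g : Tor ℤ_[p] tor) :
      IsTri J₀ τ → tor i = false → g ∈ Tp tor cv wt ℤ_[p] J₀ (wt i) →
      g ∈ supp tor ℤ_[p] (fun u => u i = 0) → s (tX tor ℤ_[p] i) = tX tor ℤ_[p] i + g →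
      (∀ l, l ≠ i → s (tX tor ℤ_[p] l) = tX tor ℤ_[p] l) → IsTri J₀ (s.trans τ)

/-- The span of the operators `p^ν Q ∘ Ψ ∘ a` in the standard chart. -/
def NearStd (J₀ : Finset I) (f : ι → Tor ℤ_[p] tor) :
    Submodule ℤ_[p] (PS ι (Tor ℤ_[p] tor) →ₗ[ℤ_[p]] PS ι (Tor ℤ_[p] tor)) :=
  Submodule.span ℤ_[p] {N | ∃ s : List σ, s ≠ [] ∧
    ∃ a ∈ Tp tor cv wt ℤ_[p] J₀ (p • (s.map wt).sum),
      N = ((p : ℤ_[p]) ^ nu s.length) •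
        (s.foldr (fun x Q => DOp p (pd tor ℤ_[p] x) f ∘ₗ Q) LinearMap.id ∘ₗ stdPsi p tor f ∘ₗ
          mulL ℤ_[p] (PS ι (Tor ℤ_[p] tor)) a)}

end Toric

/-- S1: untwisted facts on toric rings, for any coefficient ring. -/
def S1 : Prop := ∀ (Λ σ : Type) [CommRing Λ] [Fintype σ] [DecidableEq σ] (tor : σ → Bool),
  (∀ i a b, pd tor Λ i (a * b) = pd tor Λ i a * b + a * pd tor Λ i b) ∧
  (∀ i l, pd tor Λ i (tX tor Λ l) = if i = l then 1 else 0) ∧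
  (∀ i l a, pd tor Λ i (pd tor Λ l a) = pd tor Λ l (pd tor Λ i a)) ∧
  (∀ p i, phi0 tor Λ p (tX tor Λ i) = tX tor Λ i ^ p) ∧
  (∀ p, 1 ≤ p → ∀ i a, pd tor Λ i (phi0 tor Λ p a) =
    (p : Tor Λ tor) * tX tor Λ i ^ (p - 1) * phi0 tor Λ p (pd tor Λ i a)) ∧
  (∀ p, 1 ≤ p → ∀ a b, psi0 tor Λ p (phi0 tor Λ p a * b) = a * psi0 tor Λ p b) ∧
  (∀ p, 1 ≤ p → ∀ i b, psi0 tor Λ p (pd tor Λ i b) =
    (p : Tor Λ tor) * pd tor Λ i (psi0 tor Λ p (tX tor Λ i ^ (p - 1) * b))) ∧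
  (∀ (Λ' : Type) [CommRing Λ'] (g : Λ →+* Λ'),
    (∀ i, tmap tor g (tX tor Λ i) = tX tor Λ' i) ∧ (∀ i, tmap tor g (tXi tor Λ i) = tXi tor Λ' i) ∧
    (∀ f, tmap tor g (ofPoly tor Λ f) = ofPoly tor Λ' f) ∧
    (∀ i a, tmap tor g (pd tor Λ i a) = pd tor Λ' i (tmap tor g a)) ∧
    (∀ p a, tmap tor g (phi0 tor Λ p a) = phi0 tor Λ' p (tmap tor g a)) ∧
    (∀ p a, tmap tor g (psi0 tor Λ p a) = psi0 tor Λ' p (tmap tor g a))) ∧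
  (∀ (I Γ : Type) [AddCommGroup Γ] (cv : I → σ) (wt : σ → Γ) (J : Finset I),
    1 ∈ Tp tor cv wt Λ J 0 ∧ (∀ i, tX tor Λ i ∈ Tp tor cv wt Λ J (wt i)) ∧
    (∀ w w' a b, a ∈ Tp tor cv wt Λ J w → b ∈ Tp tor cv wt Λ J w' →
      a * b ∈ Tp tor cv wt Λ J (w + w')) ∧
    (∀ w i a, a ∈ Tp tor cv wt Λ J w → pd tor Λ i a ∈ Tp tor cv wt Λ J (w - wt i)) ∧
    (∀ w p a, a ∈ Tp tor cv wt Λ J w → phi0 tor Λ p a ∈ Tp tor cv wt Λ J (p • w)) ∧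
    (∀ w p, 1 ≤ p → (∀ g : Γ, p • g = 0 → g = 0) → ∀ a,
      a ∈ Tp tor cv wt Λ J (p • w - ∑ x, wt x) → psi0 tor Λ p a ∈ Tp tor cv wt Λ J (w - ∑ x, wt x)))

/-- S1p: facts over `ℤ_p`. -/
def S1p : Prop := ∀ (p : ℕ) [Fact p.Prime] (σ : Type) [Fintype σ] [DecidableEq σ] (tor : σ → Bool),
  (∀ a : Tor ℤ_[p] tor, (p : Tor ℤ_[p] tor) * a = 0 → a = 0) ∧
  (∀ a : Tor ℤ_[p] tor, (p : Tor ℤ_[p] tor) * divp p (a ^ p - phi0 tor ℤ_[p] p a) =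
    a ^ p - phi0 tor ℤ_[p] p a) ∧
  (∀ (P : (σ → ℤ) → Prop) (a : Tor ℤ_[p] tor), (p : Tor ℤ_[p] tor) * a ∈ supp tor ℤ_[p] P →
    a ∈ supp tor ℤ_[p] P) ∧
  (∀ (P : (σ → ℤ) → Prop) (a : Tor ℤ_[p] tor), a ∈ supp tor ℤ_[p] P →
    (tmap tor PadicInt.toZMod a ∈ supp tor (ZMod p) P ∧
      (tmap tor PadicInt.toZMod a = 0 → a ∈ sm (p : ℤ_[p]) (supp tor ℤ_[p] P)))) ∧
  (∀ (P : (σ → ℤ) → Prop) (b : Tor (ZMod p) tor), b ∈ supp tor (ZMod p) P →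
    ∃ a ∈ supp tor ℤ_[p] P, tmap tor PadicInt.toZMod a = b) ∧
  (∀ b : Tor (ZMod p) tor, phi0 tor (ZMod p) p b = b ^ p)

/-- S2: twisted facts in the standard chart. -/
def S2 : Prop := ∀ (p : ℕ) [Fact p.Prime], 7 ≤ p → ∀ (σ ι : Type) [Fintype σ] [DecidableEq σ]
  [Fintype ι] [DecidableEq ι] (tor : σ → Bool) (f : ι → Tor ℤ_[p] tor),
  (∀ x (a : Tor ℤ_[p] tor) b, DOp p (pd tor ℤ_[p] x) f (a • b) =
    pd tor ℤ_[p] x a • b + a • DOp p (pd tor ℤ_[p] x) f b) ∧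
  (∀ x y b, DOp p (pd tor ℤ_[p] x) f (DOp p (pd tor ℤ_[p] y) f b) =
    DOp p (pd tor ℤ_[p] y) f (DOp p (pd tor ℤ_[p] x) f b)) ∧
  (∀ x i b, DOp p (pd tor ℤ_[p] x) f (thOp f i b) = thOp f i (DOp p (pd tor ℤ_[p] x) f b)) ∧
  (∀ (a : Tor ℤ_[p] tor) b, stdPsi p tor f (phi0 tor ℤ_[p] p a • b) = a • stdPsi p tor f b) ∧
  (∀ x b, stdPsi p tor f (DOp p (pd tor ℤ_[p] x) f b) =
    (p : ℤ_[p]) • DOp p (pd tor ℤ_[p] x) f (stdPsi p tor f (tX tor ℤ_[p] x ^ (p - 1) • b))) ∧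
  (∀ i b, stdPsi p tor f (thOp f i b) = (p : ℤ_[p]) • thOp f i (stdPsi p tor f b)) ∧
  (∀ (I Γ : Type) [AddCommGroup Γ] (cv : I → σ) (wt : σ → Γ) (om : ι → Γ) (J : Finset I),
    (∀ g : Γ, p • g = 0 → g = 0) → (∀ i, f i ∈ Tp tor cv wt ℤ_[p] J (om i)) →
    (∀ x w b, b ∈ BS tor cv wt p om J w → DOp p (pd tor ℤ_[p] x) f b ∈
      BS tor cv wt p om J (w - wt x)) ∧
    (∀ w b l, b ∈ BS tor cv wt p om J (p • w) → stdPsi p tor f b l ∈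
      sm ((p : ℤ_[p]) ^ nu (∑ i, l i))
        (Tp tor cv wt ℤ_[p] J (w + ∑ i, (l i + 1) • om i - ∑ x, wt x))))

open Classical in
/-- The Taylor coefficient `(-p)^n / n!`. -/
def tc (p : ℕ) [Fact p.Prime] (n : ℕ) : ℤ_[p] :=
  if h : ‖(((-(p : ℚ)) ^ n / (n.factorial : ℚ) : ℚ) : ℚ_[p])‖ ≤ 1 then ⟨_, h⟩ else 0

/-- T4u: the untwisted Taylor formula for an elementary shift, over a `ℚ`-algebra. -/
def T4u : Prop := ∀ (p : ℕ), 2 ≤ p → ∀ (Λ σ : Type) [CommRing Λ] [Algebra ℚ Λ] [Fintype σ]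
  [DecidableEq σ] (tor : σ → Bool) (s : Tor Λ tor ≃ₐ[Λ] Tor Λ tor) (i : σ) (g : Tor Λ tor),
  tor i = false → g ∈ supp tor Λ (fun u => u i = 0) → s (tX tor Λ i) = tX tor Λ i + g →
  (∀ l, l ≠ i → s (tX tor Λ l) = tX tor Λ l) → ∀ z : Tor Λ tor, ∃ N₀, ∀ N ≥ N₀,
    s (psi0 tor Λ p (s.symm z)) = ∑ n ∈ Finset.range N,
      algebraMap ℚ Λ ((-1) ^ n / (n.factorial : ℚ)) • (pd tor Λ i ^ n) (psi0 tor Λ p
        (((tX tor Λ i + g) ^ p - phi0 tor Λ p g - tX tor Λ i ^ p) ^ n * z))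

/-- T4: the twisted Taylor formula for an elementary shift. -/
def T4 : Prop := ∀ (p : ℕ) [Fact p.Prime], 7 ≤ p →
  (∀ n, (p : ℤ_[p]) ^ nu n ∣ tc p n) ∧ tc p 0 = 1 ∧
  ∀ (σ ι : Type) [Fintype σ] [DecidableEq σ] [Fintype ι] [DecidableEq ι] (tor : σ → Bool)
    (s : Tor ℤ_[p] tor ≃ₐ[ℤ_[p]] Tor ℤ_[p] tor) (i : σ) (g : Tor ℤ_[p] tor),
    tor i = false → g ∈ supp tor ℤ_[p] (fun u => u i = 0) →
    s (tX tor ℤ_[p] i) = tX tor ℤ_[p] i + g → (∀ l, l ≠ i → s (tX tor ℤ_[p] l) = tX tor ℤ_[p] l) →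
    ∀ θ : Tor ℤ_[p] tor,
      (p : Tor ℤ_[p] tor) * θ = (tX tor ℤ_[p] i + g) ^ p - phi0 tor ℤ_[p] p g - tX tor ℤ_[p] i ^ p →
    ∀ (f : ι → Tor ℤ_[p] tor) (b : PS ι (Tor ℤ_[p] tor)) (l : ι → ℕ), ∃ N₀, ∀ N ≥ N₀,
      s (stdPsi p tor (fun t => s.symm (f t)) (fun l' => s.symm (b l')) l) =
        ∑ n ∈ Finset.range N,
          tc p n • (DOp p (pd tor ℤ_[p] i) f ^ n) (stdPsi p tor f (θ ^ n • b)) l

/-- GM: triangular automorphisms preserve the lattices, the divergence form, and are near. -/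
def GM : Prop := ∀ (p : ℕ) [Fact p.Prime], 7 ≤ p → ∀ (σ I Γ : Type) [Fintype σ] [DecidableEq σ]
  [AddCommGroup Γ] (tor : σ → Bool) (cv : I → σ) (wt : σ → Γ), (∀ v, tor (cv v) = true) →
  (∀ g : Γ, p • g = 0 → g = 0) → ∀ (J₀ : Finset I) (τ : Tor ℤ_[p] tor ≃ₐ[ℤ_[p]] Tor ℤ_[p] tor),
  IsTri tor cv wt p J₀ τ →
  (∀ J, J₀ ⊆ J → ∀ w z, z ∈ Tp tor cv wt ℤ_[p] J w ↔ τ z ∈ Tp tor cv wt ℤ_[p] J w) ∧
  (∀ x, ∃ r : σ → Tor ℤ_[p] tor, (∀ l, r l ∈ Tp tor cv wt ℤ_[p] J₀ (wt l - wt x)) ∧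
    (∀ z, τ (pd tor ℤ_[p] x (τ.symm z)) = ∑ l, r l * pd tor ℤ_[p] l z) ∧
    (∀ z, τ (pd tor ℤ_[p] x (τ.symm z)) = ∑ l, pd tor ℤ_[p] l (r l * z))) ∧
  (∀ (ι : Type) [Fintype ι] [DecidableEq ι] (om : ι → Γ) (f : ι → Tor ℤ_[p] tor),
    (∀ i, f i ∈ Tp tor cv wt ℤ_[p] J₀ (om i)) → ∀ S, ∃ N ∈ NearStd tor cv wt p J₀ f,
      ∀ J, J₀ ⊆ J → ∀ w b, b ∈ BS tor cv wt p om J (p • w) →
        (fun l => τ (stdPsi p tor (fun t => τ.symm (f t)) (fun l' => τ.symm (b l')) l)) -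
          stdPsi p tor f b - N b ∈ sm ((p : ℤ_[p]) ^ S) (BS tor cv wt p om J w))

/-- Existence of elementary shifts, and their compatibility with `psi0` in characteristic `p`. -/
def ShiftEx : Prop := ∀ (Λ σ : Type) [CommRing Λ] [Fintype σ] [DecidableEq σ] (tor : σ → Bool)
  (i : σ) (g : Tor Λ tor), tor i = false → g ∈ supp tor Λ (fun u => u i = 0) →
  (∃ s : Tor Λ tor ≃ₐ[Λ] Tor Λ tor, s (tX tor Λ i) = tX tor Λ i + g ∧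
    ∀ l, l ≠ i → s (tX tor Λ l) = tX tor Λ l) ∧
  ∀ p : ℕ, 1 ≤ p → ∀ s : Tor Λ tor →ₐ[Λ] Tor Λ tor, s (tX tor Λ i) = tX tor Λ i + g →
    (∀ l, l ≠ i → s (tX tor Λ l) = tX tor Λ l) →
    (tX tor Λ i + g) ^ p = tX tor Λ i ^ p + phi0 tor Λ p g →
    ∀ z, psi0 tor Λ p (s z) = s (psi0 tor Λ p z)

/-! ### The matrix form of P -/

/-- A filtered complex with an almost chain map, in coordinates. -/
structure MM (R ι : Type) [CommRing R] where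
  D : Matrix ι ι R
  Ψ : Matrix ι ι R
  lev : ι → ℕ
  par : ι → Bool
  Z : Submodule R (ι → R)

namespace MM
variable {R ι : Type} [CommRing R] [Fintype ι] [DecidableEq ι] (M : MM R ι) (π : R)

/-- Vectors supported in level at most `l`. -/
def W (l : ℕ) : Submodule R (ι → R) :=
  Submodule.pi Set.univ fun i => if M.lev i ≤ l then ⊤ else ⊥

/-- Even vectors. -/
def Ev (x : ι → R) : Prop := ∀ i, M.par i = true → x i = 0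

/-- The supertrace of `Ψ^k`. -/
def str (k : ℕ) : R := ∑ i, (if M.par i then -1 else 1) * (M.Ψ ^ k) i i

/-- The structural hypotheses. -/
structure Good : Prop where
  DD : M.D * M.D = 0
  parD : ∀ i j, M.par i = M.par j → M.D i j = 0
  parΨ : ∀ i j, M.par i ≠ M.par j → M.Ψ i j = 0
  fil : ∀ i j, M.lev j ≤ 1 → M.lev j < M.lev i → M.D i j = 0
  row1 : ∀ i j, M.lev i = 1 → π ∣ M.Ψ i j
  row2 : ∀ i j, 2 ≤ M.lev i → π ^ 2 ∣ M.Ψ i j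
  Zs : ∀ z ∈ M.Z, ∀ i, M.lev i ≤ 1 → z i = 0
  ZD : ∀ z ∈ M.Z, M.D.mulVec z ∈ M.Z
  ZΨ : ∀ z ∈ M.Z, M.Ψ.mulVec z ∈ M.Z
  err : ∀ x, (M.D * M.Ψ - M.Ψ * M.D).mulVec x ∈ M.Z

/-- No unit entries of `D` inside levels zero and one. -/
def Minimal : Prop := ∀ i j, M.lev i = M.lev j → M.lev i ≤ 1 → π ∣ M.D i j

/-- Level zero cohomology is spanned by `e`. -/
def H0 (e : ι → R) : Prop := e ∈ M.W 0 ∧ M.Ev e ∧ ∀ x ∈ M.W 0, M.D.mulVec x ∈ sm π (M.W 0) →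
  ∃ c : R, ∃ z ∈ M.W 0, x - c • e - M.D.mulVec z ∈ sm π (M.W 0)

/-- Rigidity in level one. -/
def H1 : Prop := ∀ x ∈ M.W 1, M.Ev x → M.D.mulVec x ∈ sm π (M.W 1) →
  ∃ z ∈ M.W 1, M.Ψ.mulVec x - π • M.D.mulVec z ∈ M.W 0 ⊔ sm (π ^ 2) ⊤

end MM

/-- P1: reduction to a minimal model. -/
def P1 : Prop := ∀ (R : Type) [CommRing R] (π : R), (∀ r : R, IsUnit r ∨ π ∣ r) →
  ∀ (ι : Type) [Fintype ι] [DecidableEq ι] (M : MM R ι), M.Good π →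
  ∃ (ι' : Type) (_ : Fintype ι') (_ : DecidableEq ι') (M' : MM R ι'), M'.Good π ∧ M'.Minimal π ∧
    (∀ k, 1 ≤ k → M'.str k = M.str k) ∧
    (Finset.univ.filter fun i => M'.lev i ≤ 1).card ≤ (Finset.univ.filter fun i => M.lev i ≤ 1).card ∧
    (M.H0 π 0 → M'.H0 π 0) ∧ (∀ e, M.H0 π e → ∃ e', M'.H0 π e') ∧ (M.H1 π → M'.H1 π)

/-- P2e: a matrix with one free row and the rigidity condition has one unit root, then slope 3/2. -/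
def P2e : Prop := ∀ (R : Type) [CommRing R] (π : R), (∀ r : R, IsUnit r ∨ π ∣ r) →
  IsNilpotent π → ∀ (ι : Type) [Fintype ι] [DecidableEq ι] (A : Matrix ι ι R) (i₀ : ι)
  (s : Finset ι), i₀ ∈ s → IsUnit (A i₀ i₀) → (∀ i j, i ≠ i₀ → π ∣ A i j) →
  (∀ i j, i ∉ s → π ^ 2 ∣ A i j) → (∀ i j, i ≠ i₀ → j ∈ s → π ^ 2 ∣ A i j) →
  ∃ u : R, ∀ k, 1 ≤ k → π ^ (k + k / 2) ∣ Matrix.trace (A ^ k) - u ^ k

/-- P2o: a matrix with at most `d` rows not divisible by `π`. -/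
def P2o : Prop := ∀ (p S : ℕ) [Fact p.Prime] (ι : Type) [Fintype ι] [DecidableEq ι]
  (A : Matrix ι ι (ZMod (p ^ S))) (s : Finset ι) (d : ℕ), s.card ≤ d →
  (∀ i j, i ∉ s → (p : ZMod (p ^ S)) ∣ A i j) →
  ∃ Λ : Matrix (Fin d) (Fin d) (ZMod (p ^ S)), ∀ k, 1 ≤ k →
    (p : ZMod (p ^ S)) ^ (k / (d + 1)) ∣ Matrix.trace (A ^ k) - Matrix.trace (Λ ^ k)

/-- P2: the conclusion for matrix models over `ZMod (p^S)`. -/
def P2 : Prop := ∀ (p S : ℕ) [Fact p.Prime] (ι : Type) [Fintype ι] [DecidableEq ι]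
  (M : MM (ZMod (p ^ S)) ι), M.Good (p : ZMod (p ^ S)) →
  (M.H0 (p : ZMod (p ^ S)) 0 → ∀ k, 1 ≤ k → (p : ZMod (p ^ S)) ^ k ∣ M.str k) ∧
  (∀ e, M.H0 (p : ZMod (p ^ S)) e → M.H1 (p : ZMod (p ^ S)) → IsUnit (M.str 1) → 2 ≤ S →
    ∀ d, 1 ≤ d → (Finset.univ.filter fun i => M.lev i ≤ 1).card ≤ d →
      ∃ (u : ZMod (p ^ S)) (Λ : Matrix (Fin d) (Fin d) (ZMod (p ^ S))), ∀ k, 1 ≤ k →
        (p : ZMod (p ^ S)) ^ (k + k / (d + 1)) ∣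
          M.str k - (u ^ k - (p : ZMod (p ^ S)) ^ k * Matrix.trace (Λ ^ k)))

end

end Pool.Agent.MP_ea150c_mp.H49
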