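import Pool.Agent.MP_ea150c_mp.H49.Link
import Pool.Agent.MP_ea150c_mp.H20.Main
import Pool.Agent.MP_ea150c_mp.H16.K5
import Pool.Agent.MP_ea150c_mp.H83.S2
import Pool.Agent.MP_ea150c_mp.H19.T4u
import Pool.Agent.MP_ea150c_mp.H86.T4
import Pool.Agent.MP_ea150c_mp.H94.GM
import Pool.Agent.MP_ea150c_mp.H55.P1
import Pool.Agent.MP_ea150c_mp.H12.P2
import Pool.Agent.MP_ea150c_mp.H9.PStmt
import Pool.Agent.MP_ea150c_mp.H29.RowF1
import Pool.Agent.MP_ea150c_mp.H33.RowF2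
import Pool.Agent.MP_ea150c_mp.H6.RowF3a
import Pool.Agent.MP_ea150c_mp.H99.RowF3b
import Pool.Agent.MP_ea150c_mp.H55.CX
import Pool.Agent.MP_ea150c_mp.H14.CI
import Pool.Agent.MP_ea150c_mp.H19.CM
import Pool.Agent.MP_ea150c_mp.H12.CS
import Pool.Agent.MP_ea150c_mp.H29.CB
import Pool.Agent.MP_ea150c_mp.H45.CV0
import Pool.Agent.MP_ea150c_mp.H50.CV1
import Pool.Agent.MP_ea150c_mp.H86.CH0
import Pool.Agent.MP_ea150c_mp.H83.CH1a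
import Pool.Agent.MP_ea150c_mp.H39.G1
import Pool.Agent.MP_ea150c_mp.H33.G2a
import Pool.Agent.MP_ea150c_mp.H6.G3a
import Pool.Agent.MP_ea150c_mp.H87.G3b
import Pool.Agent.MP_ea150c_mp.H99.G4
import Pool.Agent.MP_ea150c_mp.H96.A1

/-! The rows K, S, T, P, F, G, C collected. -/

namespace Pool.Agent.MP_ea150c_mp.H49

theorem aK1 : K1 := H75.k1
theorem aS1 : S1 := H15.s1
theorem aS1p : S1p := H45.s1p
theorem aSx : ShiftEx := H45.shiftEx aS1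
theorem aK5 : K5 := H16.k5 H20.allK4 H20.allKRow (H70.ksupp aS1 aS1p)
theorem aS2 : S2 := H83.s2 aK1 (H54K.k2 aK1) aS1 aS1p
theorem aT4 : T4 := H86.t4 aK1 (H54K.k2q aK1) aS1 aS1p (H19.t4u aS1) aSx
theorem aGM : GM := H94.gm aS1 aS1p aS2 aT4
theorem aP : PStmt := H9.pStmt (H12.p2 H55.p1 H20.sSplit)
theorem aG1 : G1 := H39.g1 aS1
theorem aC1 : C1 := H55.c1
theorem aCX : CX := H55.cx aS1
theorem aCC : CC := H55.ccc aS1 aG1
theorem aCS : CS := H12.cs aC1 aCX (H14.ci aS1 aCX) (H19.cm aC1) aCC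
theorem aCB : CB := H29.cb aS1p aG1 aCX aCC
theorem aG2a : G2a := H33.g2a aG1 aS1p aCX
theorem aG3b : G3b := H87.g3b aG1 (H6.g3a aSx) aGM aS1 aS1p
theorem aG4 : G4 := H99.g4 aG1 aK5 aS1 aS1p

theorem aA0 (fS : FStmt) (g2b : G2b) : H20.SA0 :=
  sA0 fS aG2a g2b aG3b aG4 aCS aCB (H45.cv0 aCX) (H86.ch0 aCX aCC) H96.a1 H20.allK3

theorem aGap (fS : FStmt) (g2b : G2b) (vS : VStmt) : H20.SGap :=
  sGap fS H29.rowF1 aS1 aG1 aG2a g2b aG3b aG4 aCS aCB (H45.cv0 aCX) (H50.cv1 aCX aS1)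
    (H86.ch0 aCX aCC) (H83.ch1a aCX aC1) H96.a1 H20.allK3 vS

end Pool.Agent.MP_ea150c_mp.H49
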