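import Pool.Agent.MP_ea150c_mp.H49.All1
import Pool.Agent.MP_ea150c_mp.H16.FStmt
import Pool.Agent.MP_ea150c_mp.H74.G2b
import Pool.Agent.MP_ea150c_mp.H70.VT
import Pool.Agent.MP_ea150c_mp.H15.VNT
import Pool.Agent.MP_ea150c_mp.H9.VU
import Pool.Agent.MP_ea150c_mp.H45.VG
import Pool.Agent.MP_ea150c_mp.H61.VA
import Pool.Agent.MP_ea150c_mp.H5.VE
import Pool.Agent.MP_ea150c_mp.H55.VP
import Pool.Agent.MP_ea150c_mp.H14.VD
import Pool.Agent.MP_ea150c_mp.H86.VW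
import Pool.Agent.MP_ea150c_mp.H54.VC

/-! The frame theorem and the rigidity rows collected. -/

namespace Pool.Agent.MP_ea150c_mp.H49

theorem aF : FStmt := H16.fStmt aP H29.rowF1 H33.rowF2 H6.rowF3a H99.rowF3b aC1
theorem aG2b : G2b := H74.g2b aG1 aS1 aS2
theorem aVT : VT := H70.vt aC1
theorem aVNT : VNT := H15.vnt aVT
theorem aVU : VU := H9.vu aK1 aS1 aS1p aG1 aG2a aG2b aG3b
theorem aVE : VE := H5.ve aG1 aS1 aCX aCC aVNT
theorem aVP : VP := H55.vp aG1 aS1 aCX aCC H96.a1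
theorem aVD : VD := H14.vd aK1 aS1 aS1p aS2 aSx aGM aG1 aVE aVP
theorem aVC : VC := H54V.vc (H86.vw aVU aVE aVP aVT aVNT aG2a) aVD aVT aVNT aVE aVU

theorem allA0 : H20.SA0 := aA0 aF aG2b

theorem allV (v0 : V0) : VStmt := vStmt v0 (H61.va H45.vg) aVC

theorem allGap (v0 : V0) : H20.SGap := aGap aF aG2b (allV v0)

end Pool.Agent.MP_ea150c_mp.H49
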