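import Pool.Agent.MP_ea150c_mp.H49.Tor

/-! The abstract frame (definitions and axioms) and the statements P, F. -/

namespace Pool.Agent.MP_ea150c_mp.H49

noncomputable section

/-- Data of a frame: charts `j : I` with coordinates `σ j`, graded lattices on the opens `J`. -/
structure FrameData (p : ℕ) [Fact p.Prime] (A B Γ I ι : Type) (σ : I → Type)
    [CommRing A] [Algebra ℤ_[p] A] [AddCommGroup B] [Module A B] [Module ℤ_[p] B] where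
  Ar : Finset I → Γ → Submodule ℤ_[p] A
  Bh : Finset I → Γ → Submodule ℤ_[p] B
  Bl : Finset I → Γ → ℕ → Submodule ℤ_[p] B
  x : ∀ j, σ j → A
  wt : ∀ j, σ j → Γ
  d : ∀ j, σ j → (A →ₗ[ℤ_[p]] A)
  D : ∀ j, σ j → (B →ₗ[ℤ_[p]] B)
  th : ι → (B →ₗ[A] B)
  φ : I → (A →ₐ[ℤ_[p]] A)
  Ψ : I → (B →ₗ[ℤ_[p]] B)

section Ops
variable {O A B : Type} [CommRing O] [CommRing A] [Algebra O A] [AddCommGroup B] [Module A B]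
  [Module O B] [IsScalarTower O A B]

/-- Multiplication by `a` on `B`. -/
def mulL (O B : Type) {A : Type} [CommRing O] [CommRing A] [Algebra O A] [AddCommGroup B]
    [Module A B] [Module O B] [IsScalarTower O A B] (a : A) : B →ₗ[O] B :=
  (LinearMap.lsmul A B a).restrictScalars O

/-- The operator `r ↦ r • b`. -/
def mOp (O A : Type) {B : Type} [CommRing O] [CommRing A] [Algebra O A] [AddCommGroup B]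
    [Module A B] [Module O B] [IsScalarTower O A B] (b : B) : A →ₗ[O] B :=
  (LinearMap.toSpanSingleton A B b).restrictScalars O

end Ops

namespace FrameData
variable {p : ℕ} [Fact p.Prime] {A B Γ I ι : Type} {σ : I → Type}
  [CommRing A] [Algebra ℤ_[p] A] [AddCommGroup B] [Module A B] [Module ℤ_[p] B]
  [IsScalarTower ℤ_[p] A B] [AddCommGroup Γ] [LinearOrder I] [Fintype I] [Fintype ι]
  [DecidableEq ι] [∀ j, Fintype (σ j)] [∀ j, DecidableEq (σ j)]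
  (F : FrameData p A B Γ I ι σ)

/-- Words `D ∘ ... ∘ D ∘ m_b` of weight `w` and level `l`. -/
inductive Word (J : Finset I) : Γ → ℕ → (A →ₗ[ℤ_[p]] B) → Prop
  | base (j : I) (i : σ j) (w : Γ) (l : ℕ) (b : B) : j ∈ J → b ∈ F.Bl J (w + F.wt j i) l →
      Word J w (l + 1) (F.D j i ∘ₗ mOp ℤ_[p] A b)
  | step (j : I) (i : σ j) (w : Γ) (l : ℕ) (P : A →ₗ[ℤ_[p]] B) : j ∈ J →
      Word J (w + F.wt j i) l P → Word J w (l + 1) (F.D j i ∘ₗ P)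

/-- Operators in divergence form of weight `w` and level at most `m`. -/
def L (J : Finset I) (w : Γ) (m : ℕ) : Submodule ℤ_[p] (A →ₗ[ℤ_[p]] B) :=
  Submodule.span ℤ_[p] {P | ∃ l ≤ m, F.Word J w l P}

/-- The middle term of the complex. -/
def Lt (J : Finset I) (m : ℕ) : Submodule ℤ_[p] ((A →ₗ[ℤ_[p]] B) × (ι → B)) :=
  (F.L J 0 m).prod (Submodule.pi Set.univ fun _ => if m = 0 then ⊥ else F.Bl J 0 (m - 1))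

/-- The boundary map `d (P, β) = P 1 + ∑ θ_i β_i`. -/
def dLt : ((A →ₗ[ℤ_[p]] B) × (ι → B)) →ₗ[ℤ_[p]] B where
  toFun z := z.1 1 + ∑ i, F.th i (z.2 i)
  map_add' a b := by simp [Finset.sum_add_distrib]; abel
  map_smul' c a := by simp [Finset.smul_sum]

/-- The last term of the complex. -/
def X (J : Finset I) (m : ℕ) : Submodule ℤ_[p] ((A →ₗ[ℤ_[p]] B) × (ι → B)) :=
  Submodule.span ℤ_[p]
    ({z | ∃ j ∈ J, ∃ i : σ j, ∃ l, 1 ≤ l ∧ l + 1 ≤ m ∧ ∃ P ∈ F.L J (F.wt j i) l,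
        z = (F.D j i ∘ₗ (P - mOp ℤ_[p] A (P 1)), 0)} ∪
     {z | ∃ i : ι, ∃ l, 1 ≤ l ∧ l + 1 ≤ m ∧ ∃ P ∈ F.L J 0 l,
        z = (-((F.th i).restrictScalars ℤ_[p] ∘ₗ P), Pi.single i (P 1))})

/-- The composite of the operators `D` along a list. -/
def Qw (s : List (Σ j, σ j)) : B →ₗ[ℤ_[p]] B :=
  s.foldr (fun a Q => F.D a.1 a.2 ∘ₗ Q) LinearMap.id

/-- The span of the operators `p^ν Q ∘ Ψ_k ∘ a`. -/
def NearSp (J : Finset I) (k : I) : Submodule ℤ_[p] (B →ₗ[ℤ_[p]] B) :=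
  Submodule.span ℤ_[p] {N | ∃ s : List (Σ j, σ j), s ≠ [] ∧ (∀ a ∈ s, a.1 ∈ J) ∧
    ∃ a ∈ F.Ar J (p • (s.map fun a => F.wt a.1 a.2).sum),
      N = ((p : ℤ_[p]) ^ nu s.length) • (F.Qw s ∘ₗ F.Ψ k ∘ₗ mulL ℤ_[p] B a)}

/-- Lattice axioms. -/
structure AxL : Prop where
  one : ∀ J, (1 : A) ∈ F.Ar J 0
  mul : ∀ J w w' a b, a ∈ F.Ar J w → b ∈ F.Ar J w' → a * b ∈ F.Ar J (w + w')
  monoA : ∀ J J' w, J ⊆ J' → F.Ar J w ≤ F.Ar J' w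
  monoH : ∀ J J' w, J ⊆ J' → F.Bh J w ≤ F.Bh J' w
  monoL : ∀ J J' w l, J ⊆ J' → F.Bl J w l ≤ F.Bl J' w l
  lev : ∀ J w l l', l ≤ l' → F.Bl J w l ≤ F.Bl J w l'
  le : ∀ J w l, F.Bl J w l ≤ F.Bh J w
  smulH : ∀ J w w' a b, a ∈ F.Ar J w → b ∈ F.Bh J w' → a • b ∈ F.Bh J (w + w')
  smulL : ∀ J w w' l a b, a ∈ F.Ar J w → b ∈ F.Bl J w' l → a • b ∈ F.Bl J (w + w') l
  tf : ∀ b : B, (p : ℤ_[p]) • b = 0 → b = 0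
  sat : ∀ J w l b, b ∈ F.Bh J w → (p : ℤ_[p]) • b ∈ F.Bl J w l → b ∈ F.Bl J w l
  fg : ∀ J w l, J.Nonempty → (F.Bl J w l).FG
  thH : ∀ i J w b, b ∈ F.Bh J w → F.th i b ∈ F.Bh J w
  thL : ∀ i J w l b, b ∈ F.Bl J w l → F.th i b ∈ F.Bl J w (l + 1)

/-- Axioms of one chart. -/
structure AxC : Prop where
  xmem : ∀ J j i, j ∈ J → F.x j i ∈ F.Ar J (F.wt j i)
  dmem : ∀ J j i w a, j ∈ J → a ∈ F.Ar J w → F.d j i a ∈ F.Ar J (w - F.wt j i)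
  dmul : ∀ j i a b, F.d j i (a * b) = F.d j i a * b + a * F.d j i b
  dx : ∀ j i l, F.d j i (F.x j l) = if i = l then 1 else 0
  Dsmul : ∀ j i (a : A) (b : B), F.D j i (a • b) = F.d j i a • b + a • F.D j i b
  Dcomm : ∀ j i l b, F.D j i (F.D j l b) = F.D j l (F.D j i b)
  Dth : ∀ j i s b, F.D j i (F.th s b) = F.th s (F.D j i b)
  DH : ∀ J j i w b, j ∈ J → b ∈ F.Bh J w → F.D j i b ∈ F.Bh J (w - F.wt j i)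
  DL : ∀ J j i w l b, j ∈ J → b ∈ F.Bl J w l → F.D j i b ∈ F.Bl J (w - F.wt j i) (l + 1)
  φmem : ∀ J j w a, j ∈ J → a ∈ F.Ar J w → F.φ j a ∈ F.Ar J (p • w)
  dφ : ∀ j i a, F.d j i (F.φ j a) = (p : A) * F.x j i ^ (p - 1) * F.φ j (F.d j i a)
  Ψφ : ∀ j (a : A) (b : B), F.Ψ j (F.φ j a • b) = a • F.Ψ j b
  ΨD : ∀ j i b, F.Ψ j (F.D j i b) = (p : ℤ_[p]) • F.D j i (F.Ψ j (F.x j i ^ (p - 1) • b))
  Ψth : ∀ j s b, F.Ψ j (F.th s b) = (p : ℤ_[p]) • F.th s (F.Ψ j b)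
  Ψapp : ∀ J j w b S, j ∈ J → b ∈ F.Bh J (p • w) →
    ∃ b' ∈ ⨆ l, sm ((p : ℤ_[p]) ^ nu l) (F.Bl J w l), F.Ψ j b - b' ∈ sm ((p : ℤ_[p]) ^ S) (F.Bh J w)

/-- Axioms comparing two charts. -/
structure AxT : Prop where
  trans : ∀ j k (i : σ k), ∃ r : σ j → A, (∀ l, r l ∈ F.Ar {j, k} (F.wt j l - F.wt k i)) ∧
    (∀ a, F.d k i a = ∑ l, r l * F.d j l a) ∧ (∀ b, F.D k i b = ∑ l, F.D j l (r l • b))
  near : ∀ j k S, ∃ N ∈ F.NearSp {j, k} k, ∀ J, j ∈ J → k ∈ J → ∀ w b, b ∈ F.Bh J (p • w) →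
    F.Ψ j b - F.Ψ k b - N b ∈ sm ((p : ℤ_[p]) ^ S) (F.Bh J w)

/-- `Φ` approximates `b ↦ Ψ_j (a • b)` modulo `p^S`. -/
def Approx (J : Finset I) (j : I) (w : Γ) (m S : ℕ) (a : A)
    (Φ : F.Bl J w m →ₗ[ℤ_[p]] F.Bl J w m) : Prop :=
  ∀ b : F.Bl J w m, (Φ b : B) - F.Ψ j (a • (b : B)) ∈ sm ((p : ℤ_[p]) ^ S) (F.Bh J w)

/-- The numbers `c J k` are given by the trace formula modulo `p^(2k)`. -/
def TraceHyp (c : Finset I → ℕ → ℤ_[p]) : Prop :=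
  ∀ S, ∃ m₀, ∀ m ≥ m₀, ∀ J (hJ : J.Nonempty)
    (Φ : F.Bl J 0 (m + 1) →ₗ[ℤ_[p]] F.Bl J 0 (m + 1)) (Φ' : F.Bl J 0 m →ₗ[ℤ_[p]] F.Bl J 0 m)
    (Φx : ∀ i : σ (J.min' hJ), F.Bl J (F.wt _ i) m →ₗ[ℤ_[p]] F.Bl J (F.wt _ i) m),
    F.Approx J (J.min' hJ) 0 (m + 1) S 1 Φ → F.Approx J (J.min' hJ) 0 m S 1 Φ' →
    (∀ i, F.Approx J (J.min' hJ) (F.wt _ i) m S (F.x _ i ^ (p - 1)) (Φx i)) →
    ∀ k, 1 ≤ k → (p : ℤ_[p]) ^ min S (2 * k) ∣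
      c J k - (LinearMap.trace ℤ_[p] _ (Φ ^ k) - (p : ℤ_[p]) ^ k *
        (∑ i, LinearMap.trace ℤ_[p] _ (Φx i ^ k) +
          (Fintype.card ι : ℤ_[p]) * LinearMap.trace ℤ_[p] _ (Φ' ^ k)))

/-- Cochains with values in level at most `l`, weight zero. -/
abbrev CB (l : ℕ) : Submodule ℤ_[p] (Finset I → B) := Coch fun J => F.Bl J 0 l

/-- Cochains with values in the middle term, level one. -/
abbrev CL : Submodule ℤ_[p] (Finset I → (A →ₗ[ℤ_[p]] B) × (ι → B)) := Coch fun J => F.Lt J 1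

/-- Level zero has cohomology mod `p` spanned by the class `e` of Cech degree two. -/
def H0 (e : Finset I → B) : Prop :=
  e ∈ F.CB 0 ∧ (∀ J, J.card ≠ 3 → e J = 0) ∧
  ∀ x ∈ F.CB 0, dl ℤ_[p] B x ∈ sm (p : ℤ_[p]) (F.CB 0) →
    ∃ c : ℤ_[p], ∃ z ∈ F.CB 0, x - c • e - dl ℤ_[p] B z ∈ sm (p : ℤ_[p]) (F.CB 0)

/-- The middle term has no cohomology mod `p` in odd Cech degree. -/
def H1a : Prop :=
  ∀ x ∈ F.CL, (∀ J, Odd J.card → x J = 0) → dl ℤ_[p] _ x ∈ sm (p : ℤ_[p]) F.CL →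
    ∃ z ∈ F.CL, x - dl ℤ_[p] _ z ∈ sm (p : ℤ_[p]) F.CL

/-- Level one cohomology in even Cech degree is represented by `𝒳`. -/
def H1b (𝒳 : Submodule ℤ_[p] (Finset I → B)) : Prop :=
  (∀ v ∈ 𝒳, v ∈ F.CB 1 ∧ (∀ J, J.card ≠ 3 → v J = 0) ∧ dl ℤ_[p] B v = 0) ∧
  ∀ w ∈ F.CB 1, (∀ J, Even J.card → w J = 0) →
    dl ℤ_[p] B w ∈ F.CB 0 ⊔ sm (p : ℤ_[p]) (F.CB 1) →
    ∃ v ∈ 𝒳, ∃ β ∈ F.CB 1, w - v - dl ℤ_[p] B β ∈ F.CB 0 ⊔ sm (p : ℤ_[p]) (F.CB 1)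

/-- Rigidity: the level one part of `Ψ x` is trivial for `x ∈ 𝒳`. -/
def H1c (𝒳 : Submodule ℤ_[p] (Finset I → B)) : Prop :=
  ∀ x ∈ 𝒳, ∀ w ∈ F.CB 1,
    (∀ J (hJ : J.Nonempty), F.Ψ (J.min' hJ) (x J) - (p : ℤ_[p]) • w J ∈
      F.Bl J 0 0 ⊔ sm ((p : ℤ_[p]) ^ 2) (F.Bh J 0)) →
    ∀ ζ ∈ F.CL, ∀ β ∈ F.CB 1, ∀ v ∈ 𝒳,
      w - (fun J => F.dLt (ζ J)) - dl ℤ_[p] B β - v ∈ F.CB 0 ⊔ sm (p : ℤ_[p]) (F.CB 1) →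
      ∃ ζ' ∈ F.CL, (∀ J, J.card ≠ 3 → ζ' J = 0) ∧ dl ℤ_[p] _ ζ' = 0 ∧
        v - (fun J => F.dLt (ζ' J)) ∈ F.CB 0 ⊔ sm (p : ℤ_[p]) (F.CB 1)

end FrameData

/-- The alternating sum over the nonempty opens. -/
def altSum {I R : Type} [Fintype I] [DecidableEq I] [CommRing R] (c : Finset I → R) : R :=
  ∑ J ∈ (Finset.univ : Finset (Finset I)).filter (·.Nonempty), (-1) ^ (J.card - 1) * c J

/-- One unit root, and all other reciprocal roots of slope at most one have the other sign. -/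
def Gap (p : ℕ) [Fact p.Prime] (T : ℕ → ℤ_[p]) : Prop :=
  ∃ d : ℕ, ∀ S : ℕ, ∃ (u : ℤ_[p]) (Λ : Matrix (Fin d) (Fin d) ℤ_[p]), ∀ k, 1 ≤ k →
    (p : ℤ_[p]) ^ min S (k + k / (d + 1)) ∣ T k - (u ^ k - (p : ℤ_[p]) ^ k * Matrix.trace (Λ ^ k))

/-- Statement P: the perturbation theorem for a filtered complex with an almost chain map. -/
def PStmt : Prop :=
  ∀ (p : ℕ) [Fact p.Prime], 3 ≤ p → ∀ (T : Type) [AddCommGroup T] [Module ℤ_[p] T]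
    [Module.Finite ℤ_[p] T] [Module.Free ℤ_[p] T] (ε D Ψ : T →ₗ[ℤ_[p]] T)
    (W0 W1 W2 K : Submodule ℤ_[p] T) (S : ℕ),
    (∀ x, ε (ε x) = x) → (∀ x, ε (D x) = -D (ε x)) → (∀ x, ε (Ψ x) = Ψ (ε x)) →
    (∀ x, D (D x) = 0) →
    (∀ x ∈ W0, ε x ∈ W0) → (∀ x ∈ W1, ε x ∈ W1) → (∀ x ∈ W2, ε x ∈ W2) → (∀ x ∈ K, ε x ∈ K) →
    W0 ≤ W1 → W1 ≤ W2 → IsCompl W2 K →
    (∀ x, (p : ℤ_[p]) • x ∈ W0 → x ∈ W0) → (∀ x, (p : ℤ_[p]) • x ∈ W1 → x ∈ W1) →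
    (∀ x ∈ W0, D x ∈ W0) → (∀ x ∈ W1, D x ∈ W1) →
    (∀ x, Ψ x ∈ W0 ⊔ sm (p : ℤ_[p]) W1 ⊔ sm ((p : ℤ_[p]) ^ 2) ⊤) →
    (∀ x ∈ K, Ψ x ∈ K) →
    (∀ x, D (Ψ x) - Ψ (D x) ∈ K ⊔ sm ((p : ℤ_[p]) ^ S) ⊤) →
    (((∀ x ∈ W0, D x ∈ sm (p : ℤ_[p]) W0 → ∃ z ∈ W0, x - D z ∈ sm (p : ℤ_[p]) W0) →
        ∀ k, 1 ≤ k → (p : ℤ_[p]) ^ min S k ∣ LinearMap.trace ℤ_[p] T (ε ∘ₗ Ψ ^ k)) ∧
     (∀ e ∈ W0, ε e = e →
        (∀ x ∈ W0, D x ∈ sm (p : ℤ_[p]) W0 →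
          ∃ c : ℤ_[p], ∃ z ∈ W0, x - c • e - D z ∈ sm (p : ℤ_[p]) W0) →
        (∀ x ∈ W1, ε x = x → D x ∈ sm (p : ℤ_[p]) W1 →
          ∃ z ∈ W1, Ψ x - (p : ℤ_[p]) • D z ∈ W0 ⊔ sm ((p : ℤ_[p]) ^ 2) ⊤) →
        IsUnit (LinearMap.trace ℤ_[p] T (ε ∘ₗ Ψ)) → 2 ≤ S →
        ∀ d, 1 ≤ d → Module.finrank ℤ_[p] W1 ≤ d →
          ∃ (u : ℤ_[p]) (Λ : Matrix (Fin d) (Fin d) ℤ_[p]), ∀ k, 1 ≤ k →
            (p : ℤ_[p]) ^ min S (k + k / (d + 1)) ∣ LinearMap.trace ℤ_[p] T (ε ∘ₗ Ψ ^ k) -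
              (u ^ k - (p : ℤ_[p]) ^ k * Matrix.trace (Λ ^ k))))

/-- Statement F: the frame theorem. -/
def FStmt : Prop :=
  ∀ (p : ℕ) [Fact p.Prime], 7 ≤ p → ∀ (A B Γ I ι : Type) (σ : I → Type)
    [CommRing A] [Algebra ℤ_[p] A] [AddCommGroup B] [Module A B] [Module ℤ_[p] B]
    [IsScalarTower ℤ_[p] A B] [AddCommGroup Γ] [LinearOrder I] [Fintype I] [Fintype ι]
    [DecidableEq ι] [∀ j, Fintype (σ j)] [∀ j, DecidableEq (σ j)]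
    (F : FrameData p A B Γ I ι σ) (c : Finset I → ℕ → ℤ_[p]),
    F.AxL → F.AxC → F.AxT → F.TraceHyp c →
    ((F.H0 0 → ∀ k, 1 ≤ k → (p : ℤ_[p]) ^ k ∣ altSum fun J => c J k) ∧
     (∀ e 𝒳, F.H0 e → e ∈ 𝒳 → F.H1a → F.H1b 𝒳 → F.H1c 𝒳 →
        IsUnit (altSum fun J => c J 1) → Gap p fun k => altSum fun J => c J k))

end

end Pool.Agent.MP_ea150c_mp.H49
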