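import Pool.Agent.MP_ea150c_mp.H49.SpecV
import Pool.Agent.MP_ea150c_mp.H20.SpecT

/-! The two geometric inputs from the frame theorem. -/

namespace Pool.Agent.MP_ea150c_mp.H49

noncomputable section

theorem altSum_mul {I R : Type} [Fintype I] [DecidableEq I] [CommRing R] (a : R)
    (c : Finset I → R) : altSum (fun J => a * c J) = a * altSum c := by
  simp only [altSum, Finset.mul_sum]
  exact Finset.sum_congr rfl fun J _ => by ring

theorem cast_Tc {I τ ι : Type} [LinearOrder I] [Fintype I] [Fintype τ] [DecidableEq τ]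
    (M : Model I τ ι) (F : Type) [Field F] [Fintype F] (p : ℕ) [Fact p.Prime] :
    ((M.Tc F : ℤ) : ℤ_[p]) = altSum fun J => (M.cntJ F J : ℤ_[p]) := by
  simp [Model.Tc, altSum]

theorem two_unit (p : ℕ) [Fact p.Prime] (hp : 7 ≤ p) : IsUnit (2 : ZMod p) := by
  refine Ne.isUnit ?_
  intro h
  have h2 : ((2 : ℕ) : ZMod p) = 0 := by exact_mod_cast h
  have := Nat.le_of_dvd (by norm_num) ((ZMod.natCast_eq_zero_iff 2 p).1 h2)
  omega

theorem lam_unit (k3 : K3) (p : ℕ) [Fact p.Prime] (hp : 7 ≤ p) : IsUnit (lam p) := by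
  obtain ⟨c, hc⟩ := (k3 p hp).1
  by_contra h
  have h1 : (p : ℤ_[p]) ∣ lam p := by
    rw [← PadicInt.norm_lt_one_iff_dvd]
    exact PadicInt.not_isUnit_iff.1 h
  have h2 : (p : ℤ_[p]) ∣ 1 := by
    have : (1 : ℤ_[p]) = lam p - p * c := by rw [← hc]; ring
    rw [this]
    exact dvd_sub h1 (dvd_mul_right _ _)
  exact PadicInt.irreducible_p.not_isUnit (isUnit_of_dvd_one h2)

theorem int_dvd (p : ℕ) [Fact p.Prime] (k : ℕ) (z : ℤ) (h : (p : ℤ_[p]) ^ k ∣ (z : ℤ_[p])) :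
    (p : ℤ) ^ k ∣ z := by
  have := (PadicInt.pow_p_dvd_int_iff k z).1 h
  exact_mod_cast this

section Cech
variable (cs : CS) (cb : CB) {I τ ι : Type} [LinearOrder I] [Fintype I] [Fintype τ] [DecidableEq τ]
  [Fintype ι] [DecidableEq ι] (M : Model I τ ι) (h : M.Good) (p : ℕ) [Fact p.Prime] (hp : 7 ≤ p)
include cs cb h hp

theorem offP (w : Gam I) (hw : Small w) (hk : M.KosW (ZMod p) w) : M.CechOffP p w :=
  (cb I τ ι M h p w).1 ((cs I τ ι M h (ZMod p) (two_unit p hp) w hw).1 hk)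

theorem botP (w : Gam I) (hw : Small w) (hk : M.KosV (ZMod p) w ⊥) : M.CechP p w ⊥ :=
  (cb I τ ι M h p w).2 ⊥ ⊥ (fun a ha => by rw [(Submodule.mem_bot _).1 ha]; exact zero_mem _)
    (fun a ha => ⟨0, zero_mem _, by rw [(Submodule.mem_bot _).1 ha]; simp⟩)
    ((cs I τ ι M h (ZMod p) (two_unit p hp) w hw).2 ⊥ hk)

end Cech

theorem sA0 (fS : FStmt) (g2a : G2a) (g2b : G2b) (g3b : G3b) (g4 : G4) (cs : CS) (cb : CB)
    (cv0 : CV0) (ch0 : CH0) (a1 : A1) (k3 : K3) : H20.SA0 := by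
  intro p _ hp m E _ _ G hG R S _ hRS k hk F _ _ hF
  obtain ⟨hgood, -, -, hrs⟩ := a1 (Fin m) E G hG
  have h := hgood R S
  obtain ⟨hsm, δ, e, hw, hu⟩ := hrs R S (fun h1 => hRS (by simpa using h1))
  have hP : (G.model R S).CechP p (G.model R S).w0 ⊥ := by
    refine botP cs cb _ h p hp _ hsm ?_
    rw [hw]
    exact (cv0 _ _ _ _ h (ZMod p)).2.2.2.2.2 δ e hu
  have h0 := (ch0 _ _ _ _ h p).1 hP
  let c : Finset (Fin m) → ℕ → ℤ_[p] := fun J k' =>
    (-1) ^ Fintype.card (Var (Fin m) (Ex R)) * lam p ^ (Fintype.card (Io G S) * k') *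
      (if k' = k then ((G.model R S).cntJ F J : ℤ_[p]) else ((G.model R S).cntG p k' J : ℤ_[p]))
  have hT := g4 _ _ _ _ h p hp c (fun J k' hk' => by
    by_cases h1 : k' = k
    · exact ⟨F, inferInstance, inferInstance, by rw [hF, h1], by simp only [c, if_pos h1]⟩
    · exact ⟨GaloisField p k', inferInstance, Fintype.ofFinite _, by
        rw [← @Nat.card_eq_fintype_card _ (Fintype.ofFinite _), GaloisField.card p k' (by omega)], by
        simp only [c, if_neg h1]; rfl⟩)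
  have h2 := (fS p hp _ _ _ _ _ _ _ c (g2a _ _ _ _ h p) (g2b _ _ _ _ h p hp) (g3b _ _ _ _ h p hp)
    hT).1 h0 k hk
  simp only [c, if_true] at h2
  rw [altSum_mul, ← cast_Tc] at h2
  refine int_dvd p k _ ((IsUnit.dvd_mul_left ?_).1 h2)
  exact (isUnit_one.neg.pow _).mul ((lam_unit k3 p hp).pow _)

section Main
variable {I E : Type} [LinearOrder I] [Fintype I] [Fintype E] [DecidableEq E] (G : PG I E)
  (h : G.M0.Good) (p : ℕ) [Fact p.Prime]

theorem inv_lift (s1 : S1) (g1 : G1) (i : Io G Finset.univ) :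
    ∀ a' ∈ G.InvI h (ZMod p) i, ∃ a ∈ G.InvI h ℤ_[p] i,
      tmap torV PadicInt.toZMod a.1 = a'.1 := by
  have hb := (s1 ℤ_[p] (Var I (Ex0 I)) torV).2.2.2.2.2.2.2.1 (ZMod p) PadicInt.toZMod
  intro a' ha'
  induction ha' using Submodule.span_induction with
  | mem x hx =>
    rcases hx with hx | ⟨u, v, huv, rfl⟩
    · rw [Set.mem_singleton_iff.1 hx]
      exact ⟨_, Submodule.subset_span (Or.inl rfl), hb.2.2.1 _⟩
    · refine ⟨abA ℤ_[p] u v, Submodule.subset_span (Or.inr ⟨u, v, huv, rfl⟩), ?_⟩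
      have h1 := ((g1 _ _ _ G.M0 h ℤ_[p] u).2.2.2.2.2.2.2.2.1 (ZMod p) PadicInt.toZMod
        (ofPoly torV ℤ_[p] (alP ∅ u * beP ∅ v))).1
      rw [hb.2.2.1] at h1
      exact h1
  | zero => exact ⟨0, zero_mem _, by simp⟩
  | add x y _ _ hx hy =>
    obtain ⟨a, ha, h1⟩ := hx
    obtain ⟨b, hb', h2⟩ := hy
    exact ⟨a + b, add_mem ha hb', by simp [h1, h2]⟩
  | smul c x _ hx =>
    obtain ⟨a, ha, h1⟩ := hx
    obtain ⟨c', rfl⟩ := ZMod.ringHom_surjective PadicInt.toZMod c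
    refine ⟨c' • a, Submodule.smul_mem _ _ ha, ?_⟩
    rw [Subalgebra.coe_smul, Subalgebra.coe_smul, ← h1]
    ext u
    simp [tmap]

end Main

theorem sGap (fS : FStmt) (f1 : RowF1) (s1 : S1) (g1 : G1) (g2a : G2a) (g2b : G2b) (g3b : G3b)
    (g4 : G4) (cs : CS) (cb : CB) (cv0 : CV0) (cv1 : CV1) (ch0 : CH0) (ch1a : CH1a)
    (a1 : A1) (k3 : K3) (vS : VStmt) : H20.SGap := by
  intro p _ hp m E _ _ G hG _ F _ _ hF hu
  obtain ⟨hgood, hw, hev, -⟩ := a1 (Fin m) E G hG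
  have h := hgood ∅ Finset.univ
  have h4 : (4 : ℤ) ≤ Fintype.card (Fin m) := by exact_mod_cast hG.four
  have aL := g2a _ _ _ _ h p
  have aC := g2b _ _ _ _ h p hp
  have aT := g3b _ _ _ _ h p hp
  have k0 := cv0 _ _ _ _ h (ZMod p)
  have sm0 : ∀ a b : ℤ, a ≤ 4 → b ≤ 4 → a + b ≤ 6 → Small ((0, 0, a, b) : Gam (Fin m)) :=
    fun a b _ _ _ => ⟨by simp; omega, by simp; omega, by dsimp only; omega⟩
  have sm1 : ∀ (v : Fin m) (e a b : ℤ), a ≤ 4 → b ≤ 4 → a + b ≤ 6 →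
      Small ((Pi.single v 1, e, a, b) : Gam (Fin m)) := fun v e a b _ _ _ => by
    have := abs_nonneg e
    refine ⟨?_, ?_, by dsimp only; omega⟩ <;> simp [Finset.sum_pi_single'] <;> omega
  have hP0 : G.M0.CechP p G.M0.w0 (Submodule.span ℤ_[p] {1}) := by
    rw [hw]
    refine (cb _ _ _ _ h p _).2 _ _ (fun a ha => ?_) (fun a ha => ?_)
      ((cs _ _ _ _ h (ZMod p) (two_unit p hp) _ (sm0 2 2 (by omega) (by omega) (by omega))).2 _ k0.1)
    · exact (cv0 _ _ _ _ h ℤ_[p]).1.2.1 a ha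
    · obtain ⟨c, rfl⟩ := Submodule.mem_span_singleton.1 ha
      obtain ⟨c', rfl⟩ := ZMod.ringHom_surjective PadicInt.toZMod c
      refine ⟨c' • 1, Submodule.smul_mem _ _ (Submodule.mem_span_singleton_self _), ?_⟩
      rw [Subalgebra.coe_smul, Subalgebra.coe_smul]
      ext u
      simp [tmap, AddMonoidAlgebra.one_def, Finsupp.single_apply]
  have u2 : IsUnit (2 : ℤ_[p]) := by
    by_contra h2
    have h3 : (p : ℤ_[p]) ^ 1 ∣ ((2 : ℤ) : ℤ_[p]) := by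
      rw [pow_one, ← PadicInt.norm_lt_one_iff_dvd]
      exact PadicInt.not_isUnit_iff.1 (by simpa using h2)
    have := Int.le_of_dvd (by norm_num) (int_dvd p 1 2 h3)
    rw [pow_one] at this
    omega
  have hI : ∀ i, ∀ a ∈ G.InvI h ℤ_[p] i, a ∈ G.M0.Ap ℤ_[p] ∅ (G.M0.om i) := fun i a ha => by
    simpa using (cv1 _ _ G hG h ℤ_[p] u2 i).2.2.1 a ha
  have hP1 : ∀ i, G.M0.CechP p (G.M0.w0 + G.M0.om i) (G.InvI h ℤ_[p] i) := fun i => by
    rw [hw]
    have h5 := cv1 _ _ G hG h (ZMod p) (two_unit p hp) i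
    exact (cb _ _ _ _ h p _).2 _ _ (cv1 _ _ G hG h ℤ_[p] u2 i).2.2.1 (inv_lift G h p s1 g1 i)
      ((cs _ _ _ _ h (ZMod p) (two_unit p hp) _ h5.1).2 _ h5.2)
  have H0 := (ch0 _ _ _ _ h p).2.1 hw hP0
  have H1b := (ch0 _ _ _ _ h p).2.2 hw _ hI hP1
  have H1a := ch1a _ _ _ _ h p hw aL aC (f1 p _ _ _ _ _ _ _ aL aC aT)
    (offP cs cb _ h p hp _ (sm0 2 2 (by omega) (by omega) (by omega)) k0.1.1)
    (botP cs cb _ h p hp _ (sm0 2 4 (by omega) (by omega) (by omega)) k0.2.1)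
    (botP cs cb _ h p hp _ (sm0 4 2 (by omega) (by omega) (by omega)) k0.2.2.1)
    (fun v => ⟨offP cs cb _ h p hp _ (sm1 v 0 1 1 (by omega) (by omega) (by omega)) (k0.2.2.2.1 v).1,
      botP cs cb _ h p hp _ (sm1 v 0 1 3 (by omega) (by omega) (by omega)) (k0.2.2.2.1 v).2.1,
      botP cs cb _ h p hp _ (sm1 v 0 3 1 (by omega) (by omega) (by omega)) (k0.2.2.2.1 v).2.2.1,
      offP cs cb _ h p hp _ (sm1 v 0 3 3 (by omega) (by omega) (by omega)) (k0.2.2.2.1 v).2.2.2⟩)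
    (fun t => offP cs cb _ h p hp _ (sm1 _ _ 2 2 (by omega) (by omega) (by omega)) (k0.2.2.2.2.1 t))
  let n := Fintype.card (Io G Finset.univ)
  let c : Finset (Fin m) → ℕ → ℤ_[p] := fun J k =>
    (-1) ^ Fintype.card (Var (Fin m) (Ex0 (Fin m))) * lam p ^ (n * k) * (G.M0.cntJ (F k) J : ℤ_[p])
  have hT := g4 _ _ _ _ h p hp c fun J k hk => ⟨F k, inferInstance, inferInstance, hF k hk, rfl⟩
  have hc : ∀ k, (altSum fun J => c J k) = (lam p ^ n) ^ k * ((G.M0.Tc (F k) : ℤ) : ℤ_[p]) := by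
    intro k
    simp only [c]
    rw [altSum_mul, ← cast_Tc, hev.neg_one_pow, one_mul, pow_mul]
  have hl := (lam_unit k3 p hp).pow n
  refine ⟨lam p ^ n, hl, ?_⟩
  have h6 := (fS p hp _ _ _ _ _ _ _ c aL aC aT hT).2 _ (G.XX h p) H0
    (Submodule.subset_span (Or.inl rfl)) H1a H1b (vS _ _ G hG h p hp) (by
      rw [hc]
      refine (hl.pow 1).mul ?_
      by_contra h2
      refine hu ?_
      have h3 := int_dvd p 1 (G.M0.Tc (F 1)) (by
        rw [pow_one, ← PadicInt.norm_lt_one_iff_dvd]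
        exact PadicInt.not_isUnit_iff.1 h2)
      rwa [pow_one] at h3)
  simpa only [hc] using h6

end

end Pool.Agent.MP_ea150c_mp.H49
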