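import Pool.Agent.MP_ea150c_mp.H49.Frame

/-! Statements of the operator calculus of a frame. -/

namespace Pool.Agent.MP_ea150c_mp.H49

noncomputable section

namespace FrameData
variable {p : ℕ} [Fact p.Prime] {A B Γ I ι : Type} {σ : I → Type}
  [CommRing A] [Algebra ℤ_[p] A] [AddCommGroup B] [Module A B] [Module ℤ_[p] B]
  [IsScalarTower ℤ_[p] A B] [AddCommGroup Γ] [LinearOrder I] [Fintype I] [Fintype ι]
  [DecidableEq ι] [∀ j, Fintype (σ j)] [∀ j, DecidableEq (σ j)]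
  (F : FrameData p A B Γ I ι σ)

/-- The operator `D^n` of the chart `j`. -/
def Dn (j : I) (n : σ j → ℕ) : B →ₗ[ℤ_[p]] B :=
  ((Finset.univ : Finset (σ j)).toList.map fun i => F.D j i ^ n i).prod

/-- The weight of a multi-index. -/
def wn (j : I) (n : σ j → ℕ) : Γ := ∑ i, n i • F.wt j i

/-- Multi-indices of size between `1` and `m`. -/
def idx (σ : I → Type) [∀ j, Fintype (σ j)] [∀ j, DecidableEq (σ j)] (j : I) (m : ℕ) :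
    Finset (σ j → ℕ) :=
  (Fintype.piFinset fun _ => Finset.range (m + 1)).filter fun n => 1 ≤ ∑ i, n i ∧ ∑ i, n i ≤ m

/-- Weakly small operators of weight `w`. -/
def WC (J : Finset I) (w : Γ) (S : ℕ) : Submodule ℤ_[p] (A →ₗ[ℤ_[p]] B) where
  carrier := {P | ∀ J', J ⊆ J' → ∀ w', ∀ r ∈ F.Ar J' w',
    P r ∈ sm ((p : ℤ_[p]) ^ S) (F.Bh J' (w + w'))}
  zero_mem' := fun _ _ _ _ _ => Submodule.zero_mem _
  add_mem' := fun ha hb J' h w' r hr => Submodule.add_mem _ (ha J' h w' r hr) (hb J' h w' r hr)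
  smul_mem' := fun c _ ha J' h w' r hr => Submodule.smul_mem _ c (ha J' h w' r hr)

/-- Weakly small elements of the middle term. -/
def WCt (J : Finset I) (S : ℕ) : Submodule ℤ_[p] ((A →ₗ[ℤ_[p]] B) × (ι → B)) :=
  (F.WC J 0 S).prod (Submodule.pi Set.univ fun _ => sm ((p : ℤ_[p]) ^ S) (F.Bh J 0))

/-- `P` is approximated by filtered operators. -/
def AppL (J : Finset I) (w : Γ) (P : A →ₗ[ℤ_[p]] B) : Prop :=
  ∀ S, P ∈ (⨆ l, sm ((p : ℤ_[p]) ^ nu l) (F.L J w l)) ⊔ F.WC J w S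

/-- `z` is approximated by filtered elements of `X`. -/
def AppX (J : Finset I) (z : (A →ₗ[ℤ_[p]] B) × (ι → B)) : Prop :=
  ∀ S, z ∈ (⨆ l, sm ((p : ℤ_[p]) ^ nu l) (F.X J l)) ⊔ F.WCt J S

/-- The action of `Ψ_j` on operators. -/
def ΨL (j : I) : (A →ₗ[ℤ_[p]] B) →ₗ[ℤ_[p]] (A →ₗ[ℤ_[p]] B) where
  toFun P := F.Ψ j ∘ₗ P ∘ₗ (F.φ j).toLinearMap
  map_add' _ _ := by ext; simp
  map_smul' _ _ := by ext; simp

/-- The action of `Ψ_j` on the middle term. -/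
def ΨLt (j : I) : ((A →ₗ[ℤ_[p]] B) × (ι → B)) →ₗ[ℤ_[p]] ((A →ₗ[ℤ_[p]] B) × (ι → B)) :=
  (F.ΨL j).prodMap ((p : ℤ_[p]) • (F.Ψ j).compLeft ι)

/-- The homotopy `H^{jk} b = (r ↦ (Ψ_j - Ψ_k)(φ_k r • b))`. -/
def Hop (j k : I) : B →ₗ[ℤ_[p]] (A →ₗ[ℤ_[p]] B) where
  toFun b := (F.Ψ j - F.Ψ k) ∘ₗ mOp ℤ_[p] A b ∘ₗ (F.φ k).toLinearMap
  map_add' _ _ := by ext; simp [mOp]; abel
  map_smul' c b := by
    ext r
    have h : (F.φ k) r • c • b = c • ((F.φ k) r • b) := smul_comm _ _ _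
    simp [mOp, h, smul_sub]

/-- F1: normal ordering and the PBW spanning set. -/
def F1 : Prop :=
  (∀ J J' w m m', J ⊆ J' → m ≤ m' → F.L J w m ≤ F.L J' w m') ∧
  (∀ J w, F.L J w 0 = ⊥) ∧
  (∀ J J' w w' m P r, J ⊆ J' → P ∈ F.L J w m → r ∈ F.Ar J' w' → P r ∈ F.Bl J' (w + w') m) ∧
  (∀ J w m j i P, j ∈ J → P ∈ F.L J (w + F.wt j i) m → F.D j i ∘ₗ P ∈ F.L J w (m + 1)) ∧
  (∀ J w m s P, P ∈ F.L J w m → (F.th s).restrictScalars ℤ_[p] ∘ₗ P ∈ F.L J w (m + 1)) ∧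
  (∀ J w w' m a P, a ∈ F.Ar J w' → P ∈ F.L J w m →
    ∃ b ∈ F.Bl J (w + w') m, mulL ℤ_[p] B a ∘ₗ P - mOp ℤ_[p] A b ∈ F.L J (w + w') m) ∧
  (∀ J w m j P, j ∈ J → (P ∈ F.L J w m ↔ ∃ β : (σ j → ℕ) → B,
    (∀ n ∈ idx σ j m, β n ∈ F.Bl J (w + F.wn j n) (m - ∑ i, n i)) ∧
    P = ∑ n ∈ idx σ j m, F.Dn j n ∘ₗ mOp ℤ_[p] A (β n))) ∧
  (∀ J m, F.X J m ≤ F.Lt J m) ∧ (∀ J m, ∀ z ∈ F.X J m, F.dLt z = 0) ∧
  (∀ J J' m m', J ⊆ J' → m ≤ m' → F.X J m ≤ F.X J' m') ∧ (∀ J, F.X J 1 = ⊥)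

/-- F2: the inversion formula and its consequences. -/
def F2 : Prop :=
  (∀ J w m j S (β : (σ j → ℕ) → B), j ∈ J → (∀ n ∈ idx σ j m, β n ∈ F.Bh J (w + F.wn j n)) →
    (∑ n ∈ idx σ j m, F.Dn j n ∘ₗ mOp ℤ_[p] A (β n)) ∈
      F.WC J w (S + 2 * padicValNat p m.factorial) →
    ∀ n ∈ idx σ j m, β n ∈ sm ((p : ℤ_[p]) ^ S) (F.Bh J (w + F.wn j n))) ∧
  (∀ m j (β : (σ j → ℕ) → B), (∑ n ∈ idx σ j m, F.Dn j n ∘ₗ mOp ℤ_[p] A (β n)) = 0 →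
    ∀ n ∈ idx σ j m, β n = 0) ∧
  (∀ J w m S P, J.Nonempty → P ∈ F.L J w m → P ∈ F.WC J w (S + 2 * padicValNat p m.factorial) →
    P ∈ sm ((p : ℤ_[p]) ^ S) (F.L J w m)) ∧
  (∀ J w m l P, J.Nonempty → P ∈ F.L J w m → (p : ℤ_[p]) • P ∈ F.L J w l → P ∈ F.L J w l) ∧
  (∀ J w m, J.Nonempty → (F.L J w m).FG)

/-- F3a: `Ψ_j` and the homotopies are approximated by filtered operators. -/
def F3a : Prop :=
  (∀ J j w m P, j ∈ J → P ∈ F.L J (p • w) m → F.AppL J w (F.ΨL j P)) ∧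
  (∀ J j k w b, j ∈ J → k ∈ J → b ∈ F.Bh J (p • w) → F.AppL J w (F.Hop j k b)) ∧
  (∀ J j m z, j ∈ J → z ∈ F.X J m → F.AppX J (F.ΨLt j z))

/-- F3b: the two defects lie in `X`. -/
def F3b : Prop :=
  (∀ J j k l b, j ∈ J → k ∈ J → l ∈ J → b ∈ F.Bh J 0 →
    F.AppX J (F.Hop j l b - F.Hop j k b - F.Hop k l b, 0)) ∧
  (∀ J j k m z, j ∈ J → k ∈ J → z ∈ F.Lt J m →
    F.AppX J (F.ΨLt j z - F.ΨLt k z - (F.Hop j k (F.dLt z), 0)))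

end FrameData

/-- A property of frames holds under the given axioms. -/
def ForFrames (Q : ∀ (p : ℕ) [Fact p.Prime] (A B Γ I ι : Type) (σ : I → Type)
    [CommRing A] [Algebra ℤ_[p] A] [AddCommGroup B] [Module A B] [Module ℤ_[p] B]
    [IsScalarTower ℤ_[p] A B] [AddCommGroup Γ] [LinearOrder I] [Fintype I] [Fintype ι]
    [DecidableEq ι] [∀ j, Fintype (σ j)] [∀ j, DecidableEq (σ j)],
    FrameData p A B Γ I ι σ → Prop) : Prop :=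
  ∀ (p : ℕ) [Fact p.Prime] (A B Γ I ι : Type) (σ : I → Type)
    [CommRing A] [Algebra ℤ_[p] A] [AddCommGroup B] [Module A B] [Module ℤ_[p] B]
    [IsScalarTower ℤ_[p] A B] [AddCommGroup Γ] [LinearOrder I] [Fintype I] [Fintype ι]
    [DecidableEq ι] [∀ j, Fintype (σ j)] [∀ j, DecidableEq (σ j)]
    (F : FrameData p A B Γ I ι σ), F.AxL → F.AxC → F.AxT → Q p A B Γ I ι σ F

/-- Row F1. -/
def RowF1 : Prop := ForFrames fun _ _ _ _ _ _ _ _ _ _ _ _ _ _ _ _ _ _ _ _ _ F => F.F1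

/-- Row F2. -/
def RowF2 : Prop := ForFrames fun _ _ _ _ _ _ _ _ _ _ _ _ _ _ _ _ _ _ _ _ _ F => F.F1 → F.F2

/-- Row F3a. -/
def RowF3a : Prop := ForFrames fun _ _ _ _ _ _ _ _ _ _ _ _ _ _ _ _ _ _ _ _ _ F => F.F1 → F.F3a

/-- Row F3b. -/
def RowF3b : Prop :=
  ForFrames fun _ _ _ _ _ _ _ _ _ _ _ _ _ _ _ _ _ _ _ _ _ F => F.F1 → F.F3a → F.F3b

end

end Pool.Agent.MP_ea150c_mp.H49
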