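import Pool.Agent.MP_ea150c_mp.H49.Model
import Pool.Agent.MP_ea150c_mp.H49.SpecK
import Pool.Agent.MP_ea150c_mp.H49.SpecF

/-! Statements about models: charts (G), Cech cohomology (C), rigidity target (V), counting. -/

namespace Pool.Agent.MP_ea150c_mp.H49

noncomputable section

section Defs
variable {I τ ι : Type} [DecidableEq I] [Fintype I] [Fintype τ] [DecidableEq τ]

/-- The variable `c_v` on the slice of `j`. -/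
def cvS (τ : Type) (j v : I) : Sl τ j := ⟨Sum.inl (v, 0), by simp, by simp⟩

/-- The derivation `ξ`: `d ↦ c`, `b ↦ -a`. -/
def xiZ (Λ : Type) [CommRing Λ] (I τ : Type) [DecidableEq I] [Fintype I] [DecidableEq τ] :
    Zr Λ I τ →ₗ[Λ] Zr Λ I τ :=
  ∑ v : I, (LinearMap.mulLeft Λ (tX torV Λ (Sum.inl (v, 0))) ∘ₗ pd torV Λ (Sum.inl (v, 2)) -
    LinearMap.mulLeft Λ (tX torV Λ (Sum.inl (v, 1))) ∘ₗ pd torV Λ (Sum.inl (v, 3)))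

/-- The derivation `ξ'`: `a ↦ c`, `b ↦ -d`. -/
def xiZ' (Λ : Type) [CommRing Λ] (I τ : Type) [DecidableEq I] [Fintype I] [DecidableEq τ] :
    Zr Λ I τ →ₗ[Λ] Zr Λ I τ :=
  ∑ v : I, (LinearMap.mulLeft Λ (tX torV Λ (Sum.inl (v, 0))) ∘ₗ pd torV Λ (Sum.inl (v, 1)) -
    LinearMap.mulLeft Λ (tX torV Λ (Sum.inl (v, 2))) ∘ₗ pd torV Λ (Sum.inl (v, 3)))

/-- The Koszul complex of `ξ, ξ'` on polynomials of weight `w` is exact except at the end. -/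
def Model.KosW (M : Model I τ ι) (Λ : Type) [CommRing Λ] (w : Gam I) : Prop :=
  (∀ z ∈ M.Zp Λ ∅ w, xiZ Λ I τ z = 0 → xiZ' Λ I τ z = 0 → z = 0) ∧
  (∀ z₁ ∈ M.Zp Λ ∅ (w - (0, 0, 2, 0)), ∀ z₂ ∈ M.Zp Λ ∅ (w - (0, 0, 0, 2)),
    xiZ' Λ I τ z₁ = xiZ Λ I τ z₂ → ∃ z ∈ M.Zp Λ ∅ w, xiZ Λ I τ z = z₁ ∧ xiZ' Λ I τ z = z₂)

/-- Moreover the cohomology at the end is represented by the invariants `Inv`. -/
def Model.KosV (M : Model I τ ι) (Λ : Type) [CommRing Λ] (w : Gam I)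
    (Inv : Submodule Λ (Ainv Λ I τ)) : Prop :=
  M.KosW Λ w ∧ (∀ h ∈ Inv, h ∈ M.Ap Λ ∅ (w - (0, 0, 2, 2))) ∧
  (∀ v ∈ M.Zp Λ ∅ (w - (0, 0, 2, 2)), ∃ h ∈ Inv, ∃ z₁ ∈ M.Zp Λ ∅ (w - (0, 0, 2, 0)),
    ∃ z₂ ∈ M.Zp Λ ∅ (w - (0, 0, 0, 2)), v = h.1 + xiZ' Λ I τ z₁ - xiZ Λ I τ z₂)

/-- The numerical range in which the Cech computation works. -/
def Small (w : Gam I) : Prop :=
  w.2.2.1 + ∑ v, w.1 v - |w.2.1| ≤ 5 ∧ w.2.2.2 + ∑ v, w.1 v - |w.2.1| ≤ 5 ∧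
    w.2.2.1 + w.2.2.2 < 2 * Fintype.card I

end Defs

section Defs2
variable {I τ ι : Type} [LinearOrder I] [Fintype I] [Fintype τ] [DecidableEq τ]

/-- Cochains of invariants of weight `w`. -/
abbrev Model.CA (M : Model I τ ι) (Λ : Type) [CommRing Λ] (w : Gam I) :
    Submodule Λ (Finset I → Ainv Λ I τ) := Coch fun J => M.Ap Λ J w

/-- Every cocycle of invariants of weight `w` is `h * cc` plus a coboundary, `h ∈ Inv`. -/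
def Model.CechEx (M : Model I τ ι) (Λ : Type) [CommRing Λ] (w : Gam I)
    (Inv : Submodule Λ (Ainv Λ I τ)) : Prop :=
  ∀ x ∈ M.CA Λ w, H49.dl Λ _ x = 0 → ∃ h ∈ Inv, ∃ z ∈ M.CA Λ w,
    x = (fun J => h * cc Λ τ J) + H49.dl Λ _ z

/-- Cocycles that vanish on triples are coboundaries. -/
def Model.CechOff (M : Model I τ ι) (Λ : Type) [CommRing Λ] (w : Gam I) : Prop :=
  ∀ x ∈ M.CA Λ w, (∀ J : Finset I, J.card = 3 → x J = 0) → H49.dl Λ _ x = 0 →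
    ∃ z ∈ M.CA Λ w, x = H49.dl Λ _ z

/-- `CechEx` modulo `p`. -/
def Model.CechP (M : Model I τ ι) (p : ℕ) [Fact p.Prime] (w : Gam I)
    (Inv : Submodule ℤ_[p] (Ainv ℤ_[p] I τ)) : Prop :=
  ∀ x ∈ M.CA ℤ_[p] w, H49.dl ℤ_[p] _ x ∈ sm (p : ℤ_[p]) (M.CA ℤ_[p] w) →
    ∃ h ∈ Inv, ∃ z ∈ M.CA ℤ_[p] w,
      x - (fun J => h * cc ℤ_[p] τ J) - H49.dl ℤ_[p] _ z ∈ sm (p : ℤ_[p]) (M.CA ℤ_[p] w)

/-- `CechOff` modulo `p`. -/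
def Model.CechOffP (M : Model I τ ι) (p : ℕ) [Fact p.Prime] (w : Gam I) : Prop :=
  ∀ x ∈ M.CA ℤ_[p] w, (∀ J : Finset I, J.card = 3 → x J = 0) →
    H49.dl ℤ_[p] _ x ∈ sm (p : ℤ_[p]) (M.CA ℤ_[p] w) →
    ∃ z ∈ M.CA ℤ_[p] w, x - H49.dl ℤ_[p] _ z ∈ sm (p : ℤ_[p]) (M.CA ℤ_[p] w)

/-- The count on one open over the field with `p^k` elements. -/
def Model.cntG (M : Model I τ ι) (p : ℕ) [Fact p.Prime] (k : ℕ) (J : Finset I) : ℕ :=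
  letI := Fintype.ofFinite (GaloisField p k)
  M.cntJ (GaloisField p k) J

/-- The count of the quotient over the field with `p^k` elements. -/
def Model.TG (M : Model I τ ι) (p : ℕ) [Fact p.Prime] (k : ℕ) : ℤ :=
  letI := Fintype.ofFinite (GaloisField p k)
  M.Tc (GaloisField p k)

end Defs2

section Graph
variable {I E : Type} [LinearOrder I] [Fintype I] [Fintype E] [DecidableEq E]

/-- The invariant `α_u β_v`. -/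
def abA (Λ : Type) [CommRing Λ] (u v : I) : Ainv Λ I (Ex (∅ : Finset I)) :=
  sA Λ _ u (ofPoly torV Λ (alP ∅ u * beP ∅ v))

/-- The pairs `(u, v)` for which `α_u β_v` deforms the function `i`. -/
def PG.Pair (G : PG I E) (i : Io G Finset.univ) (u v : I) : Prop :=
  (∃ h, i = Sum.inl ⟨u, h⟩ ∧ v = u) ∨
  ∃ e, i = Sum.inr (Sum.inl e) ∧
    ((G.src e = some u ∧ G.tgt e = some v) ∨ (G.src e = some v ∧ G.tgt e = some u))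

/-- The invariants in the class of the function `i`. -/
def PG.InvI (G : PG I E) (h : (G.model ∅ Finset.univ).Good) (Λ : Type) [CommRing Λ]
    (i : Io G Finset.univ) : Submodule Λ (Ainv Λ I (Ex (∅ : Finset I))) :=
  Submodule.span Λ ({(G.model ∅ Finset.univ).fA Λ h i} ∪ {a | ∃ u v, G.Pair i u v ∧ a = abA Λ u v})

/-- The cocycles representing the cohomology in levels zero and one. -/
def PG.XX (G : PG I E) (h : (G.model ∅ Finset.univ).Good) (p : ℕ) [Fact p.Prime] :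
    Submodule ℤ_[p] (Finset I → PS (Io G Finset.univ) (Ainv ℤ_[p] I (Ex (∅ : Finset I)))) :=
  Submodule.span ℤ_[p]
    ({ccY ℤ_[p] 1 0} ∪ {x | ∃ i, ∃ a ∈ G.InvI h ℤ_[p] i, x = ccY ℤ_[p] a (Pi.single i 1)})

/-- The position count over the field with `p^k` elements. -/
def PG.N4G (G : PG I E) (p : ℕ) [Fact p.Prime] (k : ℕ) : ℕ :=
  letI := Fintype.ofFinite (GaloisField p k)
  G.N4pos (GaloisField p k)

end Graph

/-- A property of good models. -/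
def ForModels (Q : ∀ (I τ ι : Type) [LinearOrder I] [Fintype I] [Fintype τ] [DecidableEq τ]
    [Fintype ι] [DecidableEq ι] (M : Model I τ ι), M.Good → Prop) : Prop :=
  ∀ (I τ ι : Type) [LinearOrder I] [Fintype I] [Fintype τ] [DecidableEq τ] [Fintype ι]
    [DecidableEq ι] (M : Model I τ ι) (h : M.Good), Q I τ ι M h

/-- G1: the charts, for any coefficient ring. -/
def G1 : Prop := ForModels fun I τ _ _ _ _ _ _ _ M h => ∀ (Λ : Type) [CommRing Λ] (j : I),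
  (∀ z, rhoA Λ τ j (kapS Λ τ j z) = z) ∧ (∀ a, kapS Λ τ j (rhoA Λ τ j a) = a) ∧
  (∀ J w z, j ∈ J → z ∈ M.Zp Λ J w → sA Λ τ j z ∈ M.Ap Λ J w) ∧
  (∀ J w a, j ∈ J → (a ∈ M.Ap Λ J w ↔
    rhoA Λ τ j a ∈ Tp (torS τ j) (cvS τ j) (fun y => M.wtv y.1) Λ J w)) ∧
  (∀ i, rhoA Λ τ j (M.fA Λ h i) = ofPoly (torS τ j) Λ (M.fS j i)) ∧
  (∀ i J, M.fA Λ h i ∈ M.Ap Λ J (M.om i)) ∧
  (∀ i, ∀ m ∈ (M.fS j i).support, ∑ y, (m y : ℤ) • M.wtv y.1 = M.om i) ∧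
  (∀ w, {u : Sl τ j → ℤ | u ∈ Mon (torS τ j) ∧ ∑ y, u y • M.wtv y.1 = w}.Finite) ∧
  (∀ (Λ' : Type) [CommRing Λ'] (g : Λ →+* Λ') z,
    tmap torV g (sj Λ τ j z) = sj Λ' τ j (tmap torV g z) ∧
    tmap (torS τ j) g (rhoZ Λ τ j z) = rhoZ Λ' τ j (tmap torV g z)) ∧
  (∑ y : Sl τ j, M.wtv y.1 =
    M.wt (fun _ => 1) - (0, 0, 2, 2) - (2 : ℕ) • M.wtv (Sum.inl (j, 0)))

/-- G2a: lattice axioms of the frame of a model. -/
def G2a : Prop := ForModels fun _ _ _ _ _ _ _ _ _ M h => ∀ (p : ℕ) [Fact p.Prime],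
  (M.frame p h).AxL

/-- G2b: chart axioms of the frame of a model. -/
def G2b : Prop := ForModels fun _ _ _ _ _ _ _ _ _ M h => ∀ (p : ℕ) [Fact p.Prime], 7 ≤ p →
  (M.frame p h).AxC

/-- G3a: the transition map is a monomial map followed by a triangular automorphism. -/
def G3a : Prop := ForModels fun I τ _ _ _ _ _ _ _ M _ => ∀ (p : ℕ) [Fact p.Prime], 3 ≤ p →
  ∀ j k : I, j ≠ k →
  ∃ (s : Tor ℤ_[p] (torS τ k) ≃ₐ[ℤ_[p]] Tor ℤ_[p] (torS τ k))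
    (m : Tor ℤ_[p] (torS τ j) ≃ₐ[ℤ_[p]] Tor ℤ_[p] (torS τ k)),
    IsTri (torS τ k) (cvS τ k) (fun y => M.wtv y.1) p {j, k} s ∧
    (∀ v, s (tX _ ℤ_[p] (cvS τ k v)) = tX _ ℤ_[p] (cvS τ k v)) ∧
    (∀ z, rhoA ℤ_[p] τ k (kapS ℤ_[p] τ j z) = s (m z)) ∧
    (∀ z, m (phi0 _ ℤ_[p] p z) = phi0 _ ℤ_[p] p (m z)) ∧
    (∀ z, tX _ ℤ_[p] (cS τ k) ^ 2 * m (tXi _ ℤ_[p] (cS τ j) ^ 2 * psi0 _ ℤ_[p] p z) =
      psi0 _ ℤ_[p] p (tX _ ℤ_[p] (cS τ k) ^ 2 * m (tXi _ ℤ_[p] (cS τ j) ^ 2 * z))) ∧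
    (∀ x : Sl τ j, ∃ r : Sl τ k → Tor ℤ_[p] (torS τ k),
      (∀ y, r y ∈ Tp (torS τ k) (cvS τ k) (fun y => M.wtv y.1) ℤ_[p] {j, k}
        (M.wtv y.1 - M.wtv x.1)) ∧
      (∀ z, m (pd _ ℤ_[p] x z) = ∑ y, r y * pd _ ℤ_[p] y (m z)) ∧
      (∀ z, tX _ ℤ_[p] (cS τ k) ^ 2 * m (tXi _ ℤ_[p] (cS τ j) ^ 2 * pd _ ℤ_[p] x z) =
        ∑ y, pd _ ℤ_[p] y (r y * (tX _ ℤ_[p] (cS τ k) ^ 2 * m (tXi _ ℤ_[p] (cS τ j) ^ 2 * z)))))

/-- G3b: transition axioms of the frame of a model. -/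
def G3b : Prop := ForModels fun _ _ _ _ _ _ _ _ _ M h => ∀ (p : ℕ) [Fact p.Prime], 7 ≤ p →
  (M.frame p h).AxT

/-- G4: the trace formula for the frame of a model. -/
def G4 : Prop := ForModels fun I τ ι _ _ _ _ _ _ M h => ∀ (p : ℕ) [Fact p.Prime], 7 ≤ p →
  ∀ c : Finset I → ℕ → ℤ_[p],
    (∀ J k, 1 ≤ k → ∃ (F : Type) (_ : Field F) (_ : Fintype F), Fintype.card F = p ^ k ∧
      c J k = (-1) ^ Fintype.card (Var I τ) * lam p ^ (Fintype.card ι * k) * (M.cntJ F J : ℤ_[p])) →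
    (M.frame p h).TraceHyp c

open Classical in
/-- G5: the count of the quotient. -/
def G5 : Prop := ForModels fun I τ _ _ _ _ _ _ _ M _ => ∀ (F : Type) [Field F] [Fintype F],
  (Fintype.card F : ℤ) ^ 2 * M.Tc F =
    ((Finset.univ.filter fun x : Var I τ → F => (∃ v, x (Sum.inl (v, 0)) ≠ 0) ∧
      ∀ i, MvPolynomial.eval₂ (Int.castRingHom F) x (M.f i) ≠ 0).card : ℤ)

/-- C1: basic facts on the Cech differential. -/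
def C1 : Prop := ∀ (O E I : Type) [CommRing O] [AddCommGroup E] [Module O E] [LinearOrder I],
  (∀ x : Finset I → E, dl O E (dl O E x) = 0) ∧
  (∀ (j : I) (x : Finset I → E), x =
    dl O E (fun J => if j ∈ J then 0 else
      ((-1 : O) ^ (J.filter (· < j)).card) • x (insert j J)) +
    fun J => if j ∈ J then 0 else
      ((-1 : O) ^ (J.filter (· < j)).card) • dl O E x (insert j J)) ∧
  (∀ M : Finset I → Submodule O E, (∀ J J', J ⊆ J' → M J ≤ M J') →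
    ∀ x ∈ Coch M, dl O E x ∈ Coch M)

/-- CX: basic facts on the derivations `ξ, ξ'` and on the weight spaces upstairs. -/
def CX : Prop := ForModels fun I τ _ _ _ _ _ _ _ M _ => ∀ (Λ : Type) [CommRing Λ],
  (∀ a b, xiZ Λ I τ (a * b) = xiZ Λ I τ a * b + a * xiZ Λ I τ b) ∧
  (∀ a b, xiZ' Λ I τ (a * b) = xiZ' Λ I τ a * b + a * xiZ' Λ I τ b) ∧
  (∀ a, xiZ Λ I τ (xiZ' Λ I τ a) = xiZ' Λ I τ (xiZ Λ I τ a)) ∧
  (∀ y, xiZ Λ I τ (tX torV Λ y) = Sum.elim (fun y : I × Fin 4 =>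
    if y.2 = 2 then tX torV Λ (Sum.inl (y.1, 0)) else if y.2 = 3 then -tX torV Λ (Sum.inl (y.1, 1))
    else 0) (fun _ => 0) y) ∧
  (∀ y, xiZ' Λ I τ (tX torV Λ y) = Sum.elim (fun y : I × Fin 4 =>
    if y.2 = 1 then tX torV Λ (Sum.inl (y.1, 0)) else if y.2 = 3 then -tX torV Λ (Sum.inl (y.1, 2))
    else 0) (fun _ => 0) y) ∧
  (∀ j, xiZ Λ I τ (nZ Λ τ j) = 1 ∧ xiZ' Λ I τ (nZ Λ τ j) = 0 ∧ xiZ Λ I τ (nZ' Λ τ j) = 0 ∧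
    xiZ' Λ I τ (nZ' Λ τ j) = 1) ∧
  (∀ a ∈ Ainv Λ I τ, xiZ Λ I τ a = 0 ∧ xiZ' Λ I τ a = 0) ∧
  (∀ J w z, z ∈ M.Zp Λ J w → xiZ Λ I τ z ∈ M.Zp Λ J (w - (0, 0, 2, 0)) ∧
    xiZ' Λ I τ z ∈ M.Zp Λ J (w - (0, 0, 0, 2))) ∧
  (∀ J j, j ∈ J → nZ Λ τ j ∈ M.Zp Λ J (0, 0, 2, 0) ∧ nZ' Λ τ j ∈ M.Zp Λ J (0, 0, 0, 2) ∧
    tXi torV Λ (Sum.inl (j, 0)) ∈ M.Zp Λ J (-M.wtv (Sum.inl (j, 0)))) ∧
  (∀ J, 1 ∈ M.Zp Λ J 0 ∧ ∀ y, tX torV Λ y ∈ M.Zp Λ J (M.wtv y)) ∧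
  (∀ J w w' a b, a ∈ M.Zp Λ J w → b ∈ M.Zp Λ J w' → a * b ∈ M.Zp Λ J (w + w')) ∧
  (∀ J J' w, J ⊆ J' → M.Zp Λ J w ≤ M.Zp Λ J' w) ∧
  (∀ J (w : Gam I), (w.2.2.1 + ∑ v, w.1 v - |w.2.1| < 0 ∨ w.2.2.2 + ∑ v, w.1 v - |w.2.1| < 0) →
    M.Zp Λ J w = ⊥)

/-- CI: in small weights the common kernel of `ξ, ξ'` consists of invariants. -/
def CI : Prop := ForModels fun I τ _ _ _ _ _ _ _ M _ => ∀ (Λ : Type) [CommRing Λ],
  IsUnit (2 : Λ) → ∀ J w z, Small w → z ∈ M.Zp Λ J w → xiZ Λ I τ z = 0 → xiZ' Λ I τ z = 0 →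
    z ∈ Ainv Λ I τ

/-- CM: the augmented Cech complex of monomials is exact. -/
def CM : Prop := ForModels fun I τ _ _ _ _ _ _ _ M _ => ∀ (Λ : Type) [CommRing Λ] (w : Gam I),
  w.2.2.1 + w.2.2.2 < 2 * Fintype.card I → ∀ x : Finset I → Zr Λ I τ, (∀ J, x J ∈ M.Zp Λ J w) →
    dl Λ _ x = 0 → ∃ y : Finset I → Zr Λ I τ, (∀ J, y J ∈ M.Zp Λ J w) ∧ dl Λ _ y = x

/-- CS: the scalar Cech theorem. -/
def CS : Prop := ForModels fun I τ _ _ _ _ _ _ _ M _ => ∀ (Λ : Type) [CommRing Λ],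
  IsUnit (2 : Λ) → ∀ (w : Gam I), Small w → (M.KosW Λ w → M.CechOff Λ w) ∧
    ∀ Inv : Submodule Λ (Ainv Λ I τ), M.KosV Λ w Inv → M.CechEx Λ w Inv

/-- CC: the class `cc` is a cocycle of the right weight. -/
def CC : Prop := ForModels fun I τ _ _ _ _ _ _ _ M _ => ∀ (Λ : Type) [CommRing Λ],
  (∀ J, cc Λ τ J ∈ M.Ap Λ J (0, 0, 2, 2)) ∧ dl Λ _ (cc Λ τ : Finset I → Ainv Λ I τ) = 0 ∧
  (∀ (J : Finset I) (h : J.card = 3), (cc Λ τ J).1 =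
    (nZ Λ τ (J.orderEmbOfFin h 0) - nZ Λ τ (J.orderEmbOfFin h 1)) *
      (nZ' Λ τ (J.orderEmbOfFin h 1) - nZ' Λ τ (J.orderEmbOfFin h 2))) ∧
  (∀ (Λ' : Type) [CommRing Λ'] (g : Λ →+* Λ') (J : Finset I),
    tmap torV g (cc Λ τ J).1 = (cc Λ' τ J).1)

/-- CB: from the residue field to congruences modulo `p`. -/
def CB : Prop := ForModels fun I τ _ _ _ _ _ _ _ M _ => ∀ (p : ℕ) [Fact p.Prime] (w : Gam I),
  (M.CechOff (ZMod p) w → M.CechOffP p w) ∧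
  ∀ (Inv : Submodule ℤ_[p] (Ainv ℤ_[p] I τ)) (Inv' : Submodule (ZMod p) (Ainv (ZMod p) I τ)),
    (∀ h ∈ Inv, h ∈ M.Ap ℤ_[p] ∅ (w - (0, 0, 2, 2))) →
    (∀ h' ∈ Inv', ∃ h ∈ Inv, tmap torV PadicInt.toZMod h.1 = h'.1) →
    M.CechEx (ZMod p) w Inv' → M.CechP p w Inv

/-- CV0: Koszul complexes in degrees zero and one. -/
def CV0 : Prop := ForModels fun I τ _ _ _ _ _ _ _ M _ => ∀ (Λ : Type) [CommRing Λ],
  M.KosV Λ (0, 0, 2, 2) (Submodule.span Λ {1}) ∧ M.KosV Λ (0, 0, 2, 4) ⊥ ∧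
  M.KosV Λ (0, 0, 4, 2) ⊥ ∧
  (∀ v : I, M.KosW Λ (Pi.single v 1, 0, 1, 1) ∧ M.KosV Λ (Pi.single v 1, 0, 1, 3) ⊥ ∧
    M.KosV Λ (Pi.single v 1, 0, 3, 1) ⊥ ∧ M.KosW Λ (Pi.single v 1, 0, 3, 3)) ∧
  (∀ t : τ, M.KosW Λ (Pi.single (M.vert t) 1, M.dil t, 2, 2)) ∧
  (∀ (δ : I → ℤ) (e : ℤ), (∀ u : Var I τ → ℤ, (∀ x, 0 ≤ u x) → (M.wt u).1 = δ → (M.wt u).2.1 ≠ e) →
    M.KosV Λ (δ, e, 2, 2) ⊥)

/-- CH0: level zero of the frame. -/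
def CH0 : Prop := ForModels fun _ _ _ _ _ _ _ _ _ M h => ∀ (p : ℕ) [Fact p.Prime],
  (M.CechP p M.w0 ⊥ → (M.frame p h).H0 0) ∧
  (M.w0 = (0, 0, 2, 2) → M.CechP p M.w0 (Submodule.span ℤ_[p] {1}) →
    (M.frame p h).H0 (ccY ℤ_[p] 1 0)) ∧
  (M.w0 = (0, 0, 2, 2) → ∀ Inv : _ → Submodule ℤ_[p] _,
    (∀ i, ∀ a ∈ Inv i, a ∈ M.Ap ℤ_[p] ∅ (M.om i)) → (∀ i, M.CechP p (M.w0 + M.om i) (Inv i)) →
    (M.frame p h).H1b (Submodule.span ℤ_[p]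
      ({ccY ℤ_[p] 1 0} ∪ {x | ∃ i, ∃ a ∈ Inv i, x = ccY ℤ_[p] a (Pi.single i 1)})))

/-- CH1a: vector fields have no cohomology in odd degree. -/
def CH1a : Prop := ForModels fun I τ _ _ _ _ _ _ _ M h => ∀ (p : ℕ) [Fact p.Prime],
  M.w0 = (0, 0, 2, 2) → (M.frame p h).AxL → (M.frame p h).AxC → (M.frame p h).F1 →
  M.CechOffP p (0, 0, 2, 2) → M.CechP p (0, 0, 2, 4) ⊥ → M.CechP p (0, 0, 4, 2) ⊥ →
  (∀ v : I, M.CechOffP p (Pi.single v 1, 0, 1, 1) ∧ M.CechP p (Pi.single v 1, 0, 1, 3) ⊥ ∧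
    M.CechP p (Pi.single v 1, 0, 3, 1) ⊥ ∧ M.CechOffP p (Pi.single v 1, 0, 3, 3)) →
  (∀ t : τ, M.CechOffP p (Pi.single (M.vert t) 1, M.dil t, 2, 2)) → (M.frame p h).H1a

/-- A property of good position graphs. -/
def ForGraphs (Q : ∀ (I E : Type) [LinearOrder I] [Fintype I] [Fintype E] [DecidableEq E],
    PG I E → Prop) : Prop :=
  ∀ (I E : Type) [LinearOrder I] [Fintype I] [Fintype E] [DecidableEq E] (G : PG I E),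
    G.Good → Q I E G

/-- A1: the models of a graph are good; their level zero classes. -/
def A1 : Prop := ForGraphs fun I _ _ _ _ _ G =>
  (∀ R S, (G.model R S).Good) ∧ (G.model ∅ Finset.univ).w0 = (0, 0, 2, 2) ∧
  Even (Fintype.card (Var I (Ex (∅ : Finset I)))) ∧
  ∀ R S, (R, S) ≠ (∅, Finset.univ) → Small (G.model R S).w0 ∧
    ∃ δ e, (G.model R S).w0 = (δ, e, 2, 2) ∧
      ∀ u : Var I (Ex R) → ℤ, (∀ x, 0 ≤ u x) → ((G.model R S).wt u).1 = δ →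
        ((G.model R S).wt u).2.1 ≠ e

/-- CV1: Koszul complexes in the classes of the functions of the main model. -/
def CV1 : Prop := ForGraphs fun _ _ _ _ _ _ G => ∀ (h : (G.model ∅ Finset.univ).Good)
  (Λ : Type) [CommRing Λ], IsUnit (2 : Λ) → ∀ i,
    Small ((0, 0, 2, 2) + (G.model ∅ Finset.univ).om i) ∧
    (G.model ∅ Finset.univ).KosV Λ ((0, 0, 2, 2) + (G.model ∅ Finset.univ).om i) (G.InvI h Λ i)

/-- V: rigidity. -/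
def VStmt : Prop := ForGraphs fun _ _ _ _ _ _ G => ∀ (h : (G.model ∅ Finset.univ).Good)
  (p : ℕ) [Fact p.Prime], 7 ≤ p → ((G.model ∅ Finset.univ).frame p h).H1c (G.XX h p)

/-- A2: from the models to position space. -/
def A2 : Prop := ForGraphs fun _ _ _ _ _ _ G => ∀ (F : Type) [Field F] [Fintype F],
  (∀ R S, Disjoint R G.N0 → (R, S) ≠ (∅, Finset.univ) →
    (Fintype.card F : ℤ) ∣ (G.model R S).Tc F) →
  (Fintype.card F : ℤ) ^ 3 ∣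
    (G.N4pos F : ℤ) - (Fintype.card F : ℤ) ^ 2 * (G.model ∅ Finset.univ).Tc F

/-- Link: what the geometric part delivers. -/
def Link : Prop := ForGraphs fun _ _ _ _ _ _ G => ∀ (p : ℕ) [Fact p.Prime], 7 ≤ p →
  (∀ k, 1 ≤ k → ((p : ℤ) ^ k) ^ 3 ∣
    (G.N4G p k : ℤ) - ((p : ℤ) ^ k) ^ 2 * (G.model ∅ Finset.univ).TG p k) ∧
  (¬ (p : ℤ) ∣ (G.model ∅ Finset.univ).TG p 1 → ∃ x : ℤ_[p], IsUnit x ∧
    Gap p fun k => x ^ k * ((G.model ∅ Finset.univ).TG p k : ℤ_[p]))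

end

end Pool.Agent.MP_ea150c_mp.H49
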