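import Mathlib

/-! Toric rings, the Dwork kernel and twisted operators (definitions). -/

namespace Pool.Agent.MP_ea150c_mp.H49

noncomputable section

/-- Exponent vectors: nonnegative on the variables that are not inverted. -/
def Mon {σ : Type} (tor : σ → Bool) : AddSubmonoid (σ → ℤ) where
  carrier := {u | ∀ i, tor i = false → 0 ≤ u i}
  zero_mem' := fun _ _ => le_rfl
  add_mem' := fun ha hb i hi => add_nonneg (ha i hi) (hb i hi)

/-- Polynomials in all variables, Laurent in those with `tor i = true`. -/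
abbrev Tor (Λ : Type) [CommRing Λ] {σ : Type} (tor : σ → Bool) : Type :=
  AddMonoidAlgebra Λ (Mon tor)

section Basic
variable {Λ : Type} [CommRing Λ] {σ : Type} (tor : σ → Bool)

open Classical in
/-- The monomial with exponent `u`, or `0` if the exponent is not allowed. -/
def monoZ (Λ : Type) [CommRing Λ] (u : σ → ℤ) : Tor Λ tor :=
  if h : u ∈ Mon tor then AddMonoidAlgebra.single ⟨u, h⟩ 1 else 0

variable [DecidableEq σ]

/-- The variable. -/
def tX (Λ : Type) [CommRing Λ] (i : σ) : Tor Λ tor := monoZ tor Λ (Pi.single i 1)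

/-- The inverse of the variable (zero if the variable is not inverted). -/
def tXi (Λ : Type) [CommRing Λ] (i : σ) : Tor Λ tor := monoZ tor Λ (Pi.single i (-1))

/-- Integer polynomials as elements of the toric ring. -/
def ofPoly (Λ : Type) [CommRing Λ] : MvPolynomial σ ℤ →+* Tor Λ tor :=
  MvPolynomial.eval₂Hom (Int.castRingHom _) (tX tor Λ)

/-- The linear map with prescribed values on monomials. -/
def linOf {B : Type} [AddCommGroup B] [Module Λ B] (g : (σ → ℤ) → B) : Tor Λ tor →ₗ[Λ] B :=
  (Finsupp.linearCombination Λ (fun u : Mon tor => g u.1)).comp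
    (AddMonoidAlgebra.coeffLinearEquiv Λ).toLinearMap

/-- Derivative in the variable `i`. -/
def pd (Λ : Type) [CommRing Λ] (i : σ) : Tor Λ tor →ₗ[Λ] Tor Λ tor :=
  linOf tor (fun u => (u i : Λ) • monoZ tor Λ (u - Pi.single i 1))

open Classical in
/-- The Cartier-type operator on top forms `g dx`: `x^u` goes to `x^((u+1)/p-1)`. -/
def psi0 (Λ : Type) [CommRing Λ] (p : ℕ) : Tor Λ tor →ₗ[Λ] Tor Λ tor :=
  linOf tor (fun u => if ∀ i, (p : ℤ) ∣ u i + 1 then monoZ tor Λ (fun i => (u i + 1) / p - 1) else 0)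

/-- The monomial Frobenius lift. -/
def phi0 (Λ : Type) [CommRing Λ] (p : ℕ) : Tor Λ tor →ₐ[Λ] Tor Λ tor :=
  AddMonoidAlgebra.mapDomainAlgHom Λ Λ (nsmulAddMonoidHom p)

/-- Elements whose exponents all satisfy `P`. -/
def supp (Λ : Type) [CommRing Λ] (P : (σ → ℤ) → Prop) : Submodule Λ (Tor Λ tor) where
  carrier := {z | ∀ u : Mon tor, z.coeff u ≠ 0 → P u.1}
  zero_mem' := fun u h => (h (by simp)).elim
  add_mem' := by
    intro a b ha hb u h
    by_cases h1 : a.coeff u = 0
    · exact hb u (fun h2 => h (by simp [h1, h2]))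
    · exact ha u h1
  smul_mem' := by
    intro c a ha u h
    exact ha u (fun h2 => h (by simp [h2]))

/-- Change of coefficients. -/
def tmap {Λ' : Type} [CommRing Λ'] (f : Λ →+* Λ') : Tor Λ tor →+* Tor Λ' tor :=
  AddMonoidAlgebra.mapRingHom _ f

variable [Fintype σ]

theorem zpair {A : Type} [CommRing A] (x y : A) (a b : ℤ) (h : x * y = 1 ∨ (0 ≤ a ∧ 0 ≤ b)) :
    x ^ (a + b).toNat * y ^ (-(a + b)).toNat =
      (x ^ a.toNat * y ^ (-a).toNat) * (x ^ b.toNat * y ^ (-b).toNat) := by
  rcases h with h | ⟨ha, hb⟩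
  · have key : ∀ m n k : ℕ, x ^ (m + k) * y ^ (n + k) = x ^ m * y ^ n := by
      intro m n k
      have : x ^ k * y ^ k = 1 := by rw [← mul_pow, h, one_pow]
      calc x ^ (m + k) * y ^ (n + k) = (x ^ m * y ^ n) * (x ^ k * y ^ k) := by ring
        _ = x ^ m * y ^ n := by rw [this, mul_one]
    have e1 : (x ^ a.toNat * y ^ (-a).toNat) * (x ^ b.toNat * y ^ (-b).toNat)
        = x ^ (a.toNat + b.toNat) * y ^ ((-a).toNat + (-b).toNat) := by ring
    rw [e1]
    obtain ⟨k, hk1, hk2⟩ : ∃ k : ℕ, a.toNat + b.toNat = (a + b).toNat + k ∧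
        (-a).toNat + (-b).toNat = (-(a + b)).toNat + k :=
      ⟨a.toNat + b.toNat - (a + b).toNat, by omega, by omega⟩
    rw [hk1, hk2, key]
  · have h1 : (-(a + b)).toNat = 0 := by omega
    have h2 : (-a).toNat = 0 := by omega
    have h3 : (-b).toNat = 0 := by omega
    have h4 : (a + b).toNat = a.toNat + b.toNat := by omega
    rw [h1, h2, h3, h4]; ring

/-- The algebra map sending the variables to `x` and the inverses to `xi`. -/
def tlift {A : Type} [CommRing A] [Algebra Λ A] (x xi : σ → A)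
    (h : ∀ i, tor i = true → x i * xi i = 1) : Tor Λ tor →ₐ[Λ] A :=
  AddMonoidAlgebra.lift Λ A (Mon tor)
    { toFun := fun u => ∏ i, (x i ^ ((Multiplicative.toAdd u).1 i).toNat *
        xi i ^ (-((Multiplicative.toAdd u).1 i)).toNat)
      map_one' := by simp
      map_mul' := by
        intro u v
        rw [← Finset.prod_mul_distrib]
        refine Finset.prod_congr rfl fun i _ => ?_
        have := zpair (x i) (xi i) ((Multiplicative.toAdd u).1 i) ((Multiplicative.toAdd v).1 i) (by
          cases ht : tor i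
          · exact Or.inr ⟨(Multiplicative.toAdd u).2 i ht, (Multiplicative.toAdd v).2 i ht⟩
          · exact Or.inl (h i ht))
        simpa using this }

theorem single_mem (i : σ) : (Pi.single i 1 : σ → ℤ) ∈ Mon tor := by
  intro l _
  by_cases h : l = i
  · subst h; simp
  · simp [Pi.single_apply, h]

theorem single_neg_mem (i : σ) (hi : tor i = true) : (Pi.single i (-1) : σ → ℤ) ∈ Mon tor := by
  intro l hl
  by_cases h : l = i
  · subst h; simp [hi] at hl
  · simp [Pi.single_apply, h]

theorem tlift_tX {A : Type} [CommRing A] [Algebra Λ A] (x xi : σ → A)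
    (h : ∀ i, tor i = true → x i * xi i = 1) (i : σ) : tlift tor x xi h (tX tor Λ i) = x i := by
  simp only [tlift, tX, monoZ, dif_pos (single_mem tor i), AddMonoidAlgebra.lift_single, one_smul]
  simp only [MonoidHom.coe_mk, OneHom.coe_mk, toAdd_ofAdd]
  rw [Finset.prod_eq_single i]
  · simp
  · intro l _ hl; simp [Pi.single_apply, hl]
  · simp

theorem tlift_tXi {A : Type} [CommRing A] [Algebra Λ A] (x xi : σ → A)
    (h : ∀ i, tor i = true → x i * xi i = 1) (i : σ) (hi : tor i = true) :
    tlift tor x xi h (tXi tor Λ i) = xi i := by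
  simp only [tlift, tXi, monoZ, dif_pos (single_neg_mem tor i hi), AddMonoidAlgebra.lift_single,
    one_smul]
  simp only [MonoidHom.coe_mk, OneHom.coe_mk, toAdd_ofAdd]
  rw [Finset.prod_eq_single i]
  · simp
  · intro l _ hl; simp [Pi.single_apply, hl]
  · simp

theorem tX_mul_tXi (i : σ) (hi : tor i = true) : tX tor Λ i * tXi tor Λ i = 1 := by
  simp only [tX, tXi, monoZ, dif_pos (single_mem tor i), dif_pos (single_neg_mem tor i hi),
    AddMonoidAlgebra.single_mul_single, one_mul]
  rw [AddMonoidAlgebra.one_def]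
  congr 1
  ext l
  by_cases h : l = i
  · subst h; simp
  · simp [Pi.single_apply, h]

theorem mono_eq_prod (u : Mon tor) : (AddMonoidAlgebra.single u 1 : Tor Λ tor) =
    ∏ i, (tX tor Λ i ^ (u.1 i).toNat * tXi tor Λ i ^ (-(u.1 i)).toNat) := by
  have h1 : ∀ i, tX tor Λ i ^ (u.1 i).toNat * tXi tor Λ i ^ (-(u.1 i)).toNat =
      AddMonoidAlgebra.single (⟨Pi.single i (u.1 i), fun l hl => by
        by_cases h : l = i
        · subst h; simpa using u.2 l hl
        · simp [Pi.single_apply, h]⟩ : Mon tor) 1 := by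
    intro i
    cases ht : tor i
    · have h0 : (-(u.1 i)).toNat = 0 := by have := u.2 i ht; omega
      have h2 := u.2 i ht
      rw [h0, pow_zero, mul_one]
      simp only [tX, monoZ, dif_pos (single_mem tor i), AddMonoidAlgebra.single_pow, one_pow]
      congr 1
      ext l
      by_cases h : l = i
      · subst h; simp; omega
      · simp [Pi.single_apply, h]
    · simp only [tX, tXi, monoZ, dif_pos (single_mem tor i), dif_pos (single_neg_mem tor i ht),
        AddMonoidAlgebra.single_pow, one_pow, AddMonoidAlgebra.single_mul_single, one_mul]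
      congr 1
      ext l
      by_cases h : l = i
      · subst h; simp; omega
      · simp [Pi.single_apply, h]
  simp only [h1]
  have h2 : ∀ (s : Finset σ) (v : σ → Mon tor),
      (∏ i ∈ s, (AddMonoidAlgebra.single (v i) 1 : Tor Λ tor)) =
        AddMonoidAlgebra.single (∑ i ∈ s, v i) 1 := by
    intro s v
    induction s using Finset.induction_on with
    | empty => simp [AddMonoidAlgebra.one_def]
    | insert a s ha ih =>
      rw [Finset.prod_insert ha, Finset.sum_insert ha, ih, AddMonoidAlgebra.single_mul_single,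
        one_mul]
  rw [h2]
  congr 1
  ext l
  simp [Finset.sum_apply, Pi.single_apply]

/-- Algebra maps out of a toric ring are determined by the images of the variables. -/
theorem tor_ext {A : Type} [CommRing A] [Algebra Λ A] {f g : Tor Λ tor →ₐ[Λ] A}
    (h : ∀ i, f (tX tor Λ i) = g (tX tor Λ i)) : f = g := by
  have hi : ∀ i, f (tXi tor Λ i) = g (tXi tor Λ i) := by
    intro i
    cases ht : tor i
    · have : tXi tor Λ i = 0 := by
        unfold tXi monoZ
        rw [dif_neg]
        intro hm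
        have := hm i ht
        simp at this
      simp [this]
    · have e1 : f (tX tor Λ i) * f (tXi tor Λ i) = 1 := by rw [← map_mul, tX_mul_tXi tor i ht, map_one]
      have e2 : g (tX tor Λ i) * g (tXi tor Λ i) = 1 := by rw [← map_mul, tX_mul_tXi tor i ht, map_one]
      calc f (tXi tor Λ i) = f (tXi tor Λ i) * (g (tX tor Λ i) * g (tXi tor Λ i)) := by rw [e2, mul_one]
        _ = (f (tX tor Λ i) * f (tXi tor Λ i)) * g (tXi tor Λ i) := by rw [h i]; ring
        _ = g (tXi tor Λ i) := by rw [e1, one_mul]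
  apply AddMonoidAlgebra.algHom_ext
  · intro u
    rw [mono_eq_prod tor u]
    simp [map_prod, map_mul, map_pow, h, hi]
  · ext

end Basic

/-- `c • M` as a submodule. -/
def sm {O E : Type} [CommRing O] [AddCommGroup E] [Module O E] (c : O) (M : Submodule O E) :
    Submodule O E := M.map (LinearMap.lsmul O E c)

/-- The valuation gained at level `l`. -/
def nu (l : ℕ) : ℕ := (2 * l + 2) / 3

section Kernel
variable (p : ℕ)

/-- Coefficients of `exp (z + z^p/p)`. -/
def eC (n : ℕ) : ℚ :=
  ∑ j ∈ Finset.range (n / p + 1), 1 / (((n - p * j).factorial : ℚ) * (j.factorial : ℚ) * (p : ℚ) ^ j)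

/-- Rational coefficient of `f^(n-pj) G^j` in the kernel, `n = p(m'+1)-(m+1)`. -/
def kq (m' m j : ℕ) : ℚ :=
  if p * j + (m + 1) ≤ p * (m' + 1) then
    (-1) ^ (m' + 1 + j) * (p : ℚ) ^ m' * eC p (p * (m' + 1) - (m + 1) - p * j) / (j.factorial : ℚ)
  else 0

variable [Fact p.Prime]

open Classical in
/-- The same coefficient as a `p`-adic integer. -/
def kc (m' m j : ℕ) : ℤ_[p] :=
  if h : ‖((kq p m' m j : ℚ) : ℚ_[p])‖ ≤ 1 then ⟨_, h⟩ else 0

/-- The one-variable kernel. -/
def kap {A : Type} [CommRing A] [Algebra ℤ_[p] A] (m' m : ℕ) (f G : A) : A :=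
  ∑ j ∈ Finset.range (m' + 1), kc p m' m j • (f ^ (p * (m' + 1) - (m + 1) - p * j) * G ^ j)

open Classical in
/-- Division by `p` (junk if not divisible). -/
def divp {A : Type} [CommRing A] (z : A) : A :=
  if h : ∃ y, z = (p : A) * y then h.choose else 0

variable {ι : Type} [Fintype ι] [DecidableEq ι]

/-- The kernel for several functions. -/
def Ker {A : Type} [CommRing A] [Algebra ℤ_[p] A] (f G : ι → A) (l' l : ι → ℕ) : A :=
  ∏ i, kap p (l' i) (l i) (f i) (G i)

/-- Series in the variables `y_i` with coefficients in `A`. -/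
abbrev PS (ι A : Type) : Type := (ι → ℕ) → A

variable {A : Type} [CommRing A] [Algebra ℤ_[p] A]

/-- Apply a linear map to all coefficients. -/
def cw {A' : Type} [CommRing A'] [Algebra ℤ_[p] A'] (L : A →ₗ[ℤ_[p]] A') :
    PS ι A →ₗ[ℤ_[p]] PS ι A' := L.compLeft (ι → ℕ)

/-- Multiplication by `y_i`. -/
def ysh (A : Type) [CommRing A] (i : ι) : PS ι A →ₗ[A] PS ι A where
  toFun b l := if l i = 0 then 0 else b (l - Pi.single i 1)
  map_add' a b := by ext l; by_cases h : l i = 0 <;> simp [h]
  map_smul' c a := by ext l; by_cases h : l i = 0 <;> simp [h]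

/-- The Dwork operator. -/
def PsiOp (ψ : A →ₗ[ℤ_[p]] A) (f G : ι → A) : PS ι A →ₗ[ℤ_[p]] PS ι A where
  toFun b l' := ∑ l ∈ Fintype.piFinset (fun i => Finset.range (p * (l' i + 1))),
    ψ (Ker p f G l' l * b l)
  map_add' a b := by ext l; simp [mul_add, Finset.sum_add_distrib]
  map_smul' c a := by ext l; simp [Finset.smul_sum]

/-- The twisted derivation `d + sum y_i d(f_i)`. -/
def DOp (d : A →ₗ[ℤ_[p]] A) (f : ι → A) : PS ι A →ₗ[ℤ_[p]] PS ι A :=
  cw p d + ∑ i, (d (f i) • ysh A i).restrictScalars ℤ_[p]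

/-- The twisted Euler operator `y_i d/dy_i + 1 + y_i f_i`. -/
def thOp (f : ι → A) (i : ι) : PS ι A →ₗ[A] PS ι A where
  toFun b l := ((l i + 1 : ℕ) : A) * b l + f i * ysh A i b l
  map_add' a b := by ext l; simp; ring
  map_smul' c a := by ext l; simp; ring

/-- The standard Dwork operator on a toric ring. -/
def stdPsi {σ : Type} [DecidableEq σ] (tor : σ → Bool) (f : ι → Tor ℤ_[p] tor) :
    PS ι (Tor ℤ_[p] tor) →ₗ[ℤ_[p]] PS ι (Tor ℤ_[p] tor) :=
  PsiOp p (psi0 tor ℤ_[p] p) f (fun i => divp p (f i ^ p - phi0 tor ℤ_[p] p (f i)))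

/-- Matrix entries of the Dwork operator in logarithmic exponents. -/
def ent {σ : Type} [DecidableEq σ] (fp : ι → MvPolynomial σ ℤ)
    (a b : (σ → ℤ) × (ι → ℕ)) : ℤ_[p] :=
  (Ker p (fun i => ofPoly (fun _ : σ => true) ℤ_[p] (fp i))
    (fun i => divp p (ofPoly (fun _ : σ => true) ℤ_[p] (fp i) ^ p -
      phi0 (fun _ : σ => true) ℤ_[p] p (ofPoly (fun _ : σ => true) ℤ_[p] (fp i)))) a.2 b.2).coeff
    ⟨(p : ℤ) • a.1 - b.1, fun _ h => by simp at h⟩

open Classical in
/-- Trace of the `k`-th power of the compression of the Dwork matrix to a finite index set. -/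
def trk {σ : Type} [DecidableEq σ] (fp : ι → MvPolynomial σ ℤ)
    (M : Finset ((σ → ℤ) × (ι → ℕ))) (k : ℕ) : ℤ_[p] :=
  Matrix.trace ((Matrix.of fun a b : M => ent p fp a.1 b.1) ^ k)

end Kernel

open Classical in
/-- Number of points with the marked coordinates and all the `fp i` nonzero. -/
def cnt {σ ι : Type} [Fintype σ] (tor : σ → Prop) (fp : ι → MvPolynomial σ ℤ)
    (F : Type) [Field F] [Fintype F] : ℕ :=
  (Finset.univ.filter fun x : σ → F =>
    (∀ i, tor i → x i ≠ 0) ∧ ∀ i, MvPolynomial.eval₂ (Int.castRingHom F) x (fp i) ≠ 0).card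

section Cech
variable {I : Type} [LinearOrder I]

/-- The Cech differential on all cochains. -/
def dl (O : Type) [CommRing O] (E : Type) [AddCommGroup E] [Module O E] :
    (Finset I → E) →ₗ[O] (Finset I → E) where
  toFun x J := ∑ j ∈ J, ((-1 : O) ^ (J.filter (· < j)).card) • x (J.erase j)
  map_add' a b := by ext J; simp [Finset.sum_add_distrib]
  map_smul' c a := by
    ext J; simp only [Pi.smul_apply, RingHom.id_apply, Finset.smul_sum]
    exact Finset.sum_congr rfl fun j _ => smul_comm _ _ _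

/-- Cochains with values in a family of submodules (zero on the empty set). -/
def Coch {O E : Type} [CommRing O] [AddCommGroup E] [Module O E]
    (M : Finset I → Submodule O E) : Submodule O (Finset I → E) where
  carrier := {x | x ∅ = 0 ∧ ∀ J, x J ∈ M J}
  zero_mem' := ⟨rfl, fun J => (M J).zero_mem⟩
  add_mem' := fun ha hb => ⟨by simp [ha.1, hb.1], fun J => (M J).add_mem (ha.2 J) (hb.2 J)⟩
  smul_mem' := fun c _ ha => ⟨by simp [ha.1], fun J => (M J).smul_mem c (ha.2 J)⟩

end Cech

end

end Pool.Agent.MP_ea150c_mp.H49
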